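import Mathlib

/-!
# A generic vector of a complex space is enough
-/

set_option autoImplicit false

namespace Pool.Agent.Lib.MP_021685_agP

open Module

/-- A generic vector of a complex space of vectors: a rational linear form which vanishes on it
vanishes on the space. -/
theorem exists_generic {J : Type*} [Fintype J] (T : Submodule ℂ (J → ℂ)) :
    ∃ θ ∈ T, ∀ f : J → ℚ, ∑ j, (f j : ℂ) * θ j = 0 → ∀ η ∈ T, ∑ j, (f j : ℂ) * η j = 0 := by
  classical
  obtain ⟨M, B⟩ : ∃ M, ∃ B : Basis (Fin M) ℂ T, True := ⟨_, Module.finBasis ℂ T, trivial⟩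
  obtain ⟨B, -⟩ := B
  -- the polynomial of a linear form
  obtain ⟨P, hP⟩ : ∃ P : (J → ℚ) → Polynomial ℂ, ∀ f, P f =
      ∑ k : Fin M, Polynomial.C (∑ j, (f j : ℂ) * (B k : J → ℂ) j) * Polynomial.X ^ (k : ℕ) :=
    ⟨_, fun _ => rfl⟩
  have hcoef : ∀ f (k : Fin M), (P f).coeff k = ∑ j, (f j : ℂ) * (B k : J → ℂ) j := by
    intro f k
    rw [hP, Polynomial.finsetSum_coeff, Finset.sum_eq_single k]
    · rw [Polynomial.coeff_C_mul, Polynomial.coeff_X_pow, if_pos rfl, mul_one]
    · intro k' _ hk'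
      rw [Polynomial.coeff_C_mul, Polynomial.coeff_X_pow, if_neg, mul_zero]
      intro h
      exact hk' (Fin.ext h.symm)
    · intro h
      exact absurd (Finset.mem_univ _) h
  have hcount : (⋃ f : J → ℚ, ((P f).roots.toFinset : Set ℂ)).Countable :=
    Set.countable_iUnion fun f => (Finset.countable_toSet _)
  obtain ⟨s, hs⟩ : ∃ s : ℂ, s ∉ ⋃ f : J → ℚ, ((P f).roots.toFinset : Set ℂ) := by
    by_contra h
    push Not at h
    have h1 : (Set.univ : Set ℂ).Countable := hcount.mono fun s _ => h s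
    exact not_countable_complex h1
  refine ⟨∑ k : Fin M, s ^ (k : ℕ) • (B k : J → ℂ), Submodule.sum_mem _ fun k _ =>
    T.smul_mem _ (B k).2, fun f hf => ?_⟩
  have h1 : (P f).eval s = 0 := by
    rw [hP, Polynomial.eval_finsetSum, ← hf]
    have h2 : ∀ j, (∑ k : Fin M, s ^ (k : ℕ) • (B k : J → ℂ)) j =
        ∑ k : Fin M, s ^ (k : ℕ) * (B k : J → ℂ) j := by
      intro j
      rw [Finset.sum_apply]
      rfl
    simp only [h2, Finset.mul_sum]
    rw [Finset.sum_comm]
    refine Finset.sum_congr rfl fun k _ => ?_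
    rw [Polynomial.eval_mul, Polynomial.eval_C, Polynomial.eval_pow, Polynomial.eval_X,
      Finset.sum_mul]
    refine Finset.sum_congr rfl fun j _ => ?_
    ring
  have h2 : P f = 0 := by
    by_contra h
    refine hs (Set.mem_iUnion.2 ⟨f, ?_⟩)
    rw [Finset.mem_coe, Multiset.mem_toFinset, Polynomial.mem_roots h]
    exact h1
  intro η hη
  have h3 := congrArg (fun x : T => (x : J → ℂ)) (B.sum_repr ⟨η, hη⟩)
  beta_reduce at h3
  have h4 : ∀ j, η j = ∑ k : Fin M, B.repr ⟨η, hη⟩ k * (B k : J → ℂ) j := by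
    intro j
    have h5 := congrFun h3 j
    refine Eq.trans h5.symm ?_
    beta_reduce
    rw [Submodule.coe_sum, Finset.sum_apply]
    rfl
  simp only [h4, Finset.mul_sum]
  rw [Finset.sum_comm]
  refine Finset.sum_eq_zero fun k _ => ?_
  have h5 : ∑ j, (f j : ℂ) * (B k : J → ℂ) j = 0 := by
    rw [← hcoef, h2, Polynomial.coeff_zero]
  have h6 : ∑ j, (f j : ℂ) * (B.repr ⟨η, hη⟩ k * (B k : J → ℂ) j) =
      B.repr ⟨η, hη⟩ k * ∑ j, (f j : ℂ) * (B k : J → ℂ) j := by
    rw [Finset.mul_sum]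
    refine Finset.sum_congr rfl fun j _ => ?_
    ring
  rw [h6, h5, mul_zero]

/-- If a generic vector of a space is in a space defined over the rational numbers, then so is the
whole space. -/
theorem le_of_generic {J : Type*} [Fintype J] {T : Submodule ℂ (J → ℂ)} {θ : J → ℂ}
    (hgen : ∀ f : J → ℚ, ∑ j, (f j : ℂ) * θ j = 0 → ∀ η ∈ T, ∑ j, (f j : ℂ) * η j = 0)
    (S : Submodule ℚ (J → ℚ))
    (hθ : θ ∈ Submodule.span ℂ {w : J → ℂ | ∃ q ∈ S, w = fun j => (q j : ℂ)}) :
    T ≤ Submodule.span ℂ {w : J → ℂ | ∃ q ∈ S, w = fun j => (q j : ℂ)} := by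
  classical
  obtain ⟨S', hS'⟩ := S.exists_isCompl
  obtain ⟨p, hp1, hp2⟩ : ∃ p : (J → ℚ) →ₗ[ℚ] (J → ℚ), (∀ x, p x ∈ S) ∧ ∀ x ∈ S, p x = x := by
    refine ⟨S.subtype ∘ₗ S.projectionOnto S' hS', fun x => ?_, fun x hx => ?_⟩
    · exact (S.projectionOnto S' hS' x).2
    · have h1 := Submodule.projectionOnto_apply_left hS' ⟨x, hx⟩
      exact congrArg (fun y : S => (y : J → ℚ)) h1
  obtain ⟨a, ha⟩ : ∃ a : J → J → ℚ, a = fun i j => p (Pi.single j 1) i := ⟨_, rfl⟩
  have hpa : ∀ x i, p x i = ∑ j, a i j * x j := by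
    intro x i
    have h1 : x = ∑ j, x j • (Pi.single j 1 : J → ℚ) := by
      funext i
      rw [Finset.sum_apply, Finset.sum_eq_single i]
      · simp
      · intro j _ hj
        simp [Ne.symm hj]
      · intro h
        exact absurd (Finset.mem_univ _) h
    conv_lhs => rw [h1]
    rw [map_sum, Finset.sum_apply]
    refine Finset.sum_congr rfl fun j _ => ?_
    rw [map_smul, Pi.smul_apply, smul_eq_mul, ha, mul_comm]
  -- the generic vector is fixed by the projection
  have h1 : ∀ i, ∑ j, (a i j : ℂ) * θ j = θ i := by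
    refine Submodule.span_induction (p := fun w _ => ∀ i, ∑ j, (a i j : ℂ) * w j = w i)
      ?_ ?_ ?_ ?_ hθ
    · rintro w ⟨q, hq, rfl⟩ i
      have h2 := hpa q i
      rw [hp2 q hq] at h2
      show ∑ j, (a i j : ℂ) * (q j : ℂ) = (q i : ℂ)
      rw [h2]
      push_cast
      rfl
    · intro i
      simp
    · intro x y _ _ hx hy i
      simp only [Pi.add_apply, mul_add, Finset.sum_add_distrib, hx i, hy i]
    · intro c x _ hx i
      rw [Pi.smul_apply, smul_eq_mul, ← hx i, Finset.mul_sum]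
      refine Finset.sum_congr rfl fun j _ => ?_
      rw [Pi.smul_apply, smul_eq_mul]
      ring
  have h2 : ∀ η ∈ T, ∀ i, ∑ j, (a i j : ℂ) * η j = η i := by
    intro η hη i
    have key : ∀ x : J → ℂ, ∑ j, (((a i j - if i = j then 1 else 0 : ℚ)) : ℂ) * x j =
        ∑ j, (a i j : ℂ) * x j - x i := by
      intro x
      have h3 : ∀ j, (((a i j - if i = j then 1 else 0 : ℚ)) : ℂ) * x j =
          (a i j : ℂ) * x j - if i = j then x j else 0 := by
        intro j
        push_cast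
        split_ifs <;> ring
      simp only [h3, Finset.sum_sub_distrib, Finset.sum_ite_eq, Finset.mem_univ, if_true]
    have h4 := hgen (fun j => a i j - if i = j then 1 else 0) (by rw [key, h1 i, sub_self]) η hη
    rw [key] at h4
    exact sub_eq_zero.1 h4
  intro η hη
  have h3 : η = ∑ j, η j • fun i => ((a i j : ℚ) : ℂ) := by
    funext i
    rw [Finset.sum_apply, ← h2 η hη i]
    refine Finset.sum_congr rfl fun j _ => ?_
    rw [Pi.smul_apply, smul_eq_mul, mul_comm]
  rw [h3]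
  refine Submodule.sum_mem _ fun j _ => Submodule.smul_mem _ _ (Submodule.subset_span
    ⟨p (Pi.single j 1), hp1 _, ?_⟩)
  funext i
  rw [ha]

end Pool.Agent.Lib.MP_021685_agP
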