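import Pool.Agent.Lib.MP_021685_agS.TDf

/-!
# Extension of the endomorphisms: definition
-/

set_option autoImplicit false

open scoped TensorProduct

namespace Pool.Agent.Lib.MP_021685_agP

/-- The endomorphism `T'` of `ℂ ⊗ L` is the extension of the endomorphism `T` of `V`, of which a
multiple preserves `L` (an element of `End A ⊗ ℚ`, `A = V / L`). -/
def EndExt {V : Type*} [AddCommGroup V] [Module ℂ V] {L : AddSubgroup V} (T : Module.End ℂ V)
    (T' : Module.End ℂ (ℂ ⊗[ℤ] L)) : Prop :=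
  ∀ (m : ℕ) (x y : L), m • T (x : V) = (y : V) → m • T' ((1 : ℂ) ⊗ₜ[ℤ] x) = (1 : ℂ) ⊗ₜ[ℤ] y

end Pool.Agent.Lib.MP_021685_agP
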