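import Mathlib

/-!
# Stable spaces of alternating forms
-/

set_option autoImplicit false

namespace Pool.Agent.Lib.MP_021685_agP

/-- The space `W` of alternating forms on `H` is stable under the (derivations attached to the)
endomorphisms in `g`. -/
def IsStableSpace {H : Type*} [AddCommGroup H] [Module ℂ H] {r : ℕ}
    (g : Submodule ℂ (Module.End ℂ H)) (W : Submodule ℂ (H [⋀^Fin r]→ₗ[ℂ] ℂ)) : Prop :=
  ∀ X ∈ g, ∀ θ ∈ W, ∃ θ' ∈ W, ∀ v, θ' v = ∑ s, θ (Function.update v s (X (v s)))

end Pool.Agent.Lib.MP_021685_agP
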