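import Pool.Agent.Lib.MP_021685_agP.PDg
import Pool.Agent.Lib.MP_021685_agP.PDh
import Pool.Agent.Lib.MP_021685_agQ.QC

/-!
# The Lie algebra of the image of Galois: definition
-/

set_option autoImplicit false

open Pool.Agent.Lib.MP_802513_ag Pool.Agent.Lib.MP_021685_agS Pool.Agent.Lib.MP_021685_agQ
open scoped TensorProduct

namespace Pool.Agent.Lib.MP_021685_agP

/-- The Lie algebra `γ` of endomorphisms of `H = ℂ ⊗ L` and the function `c : γ → ℂ` satisfy
(`A = V / L` an abelian variety over a number field: `γ` is the Lie algebra of the image of the Galois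
group in `GL (T_ℓ A)`, over `ℂ ⊇ ℚ_ℓ`, and `c` is its cyclotomic character):

* `lie`: `γ` is closed under brackets;
* `hodge`: the Hodge classes on the powers of `A` are Tate classes for `γ`, `c` (Deligne);
* `cochar`: an endomorphism which commutes with all the idempotents `h ∈ γ` with `c h = 1` commutes
  with `γ` (Pink: `γ` is generated by the derivatives of Hodge cocharacters);
* `sen`: for every automorphism `τ` of `ℂ` there is such an idempotent `h` (the operator of Sen at a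
  place above `ℓ`) with `tr (h T) = τ (tr (T, V))` for all `T ∈ End A ⊗ ℚ` (Hodge-Tate decomposition);
* `semisimple`: every `γ`-stable space of alternating forms of degree `dim A` on `H` has a
  `γ`-stable complement (Faltings). -/
structure IsGaloisLie {V : Type*} [AddCommGroup V] [Module ℂ V] (L : AddSubgroup V)
    (γ : Submodule ℂ (Module.End ℂ (ℂ ⊗[ℤ] L))) (c : Module.End ℂ (ℂ ⊗[ℤ] L) → ℂ) : Prop where
  lie : ∀ X ∈ γ, ∀ Y ∈ γ, X * Y - Y * X ∈ γ
  hodge : ∀ (n i : ℕ) (θ : (Fin n → ℂ ⊗[ℤ] L) [⋀^Fin (2 * i)]→ₗ[ℂ] ℂ),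
    θ ∈ extF ℂ (hodgeC L) n i → IsTate γ c n i θ
  cochar : ∀ Y : Module.End ℂ (ℂ ⊗[ℤ] L), (∀ h ∈ γ, h * h = h → c h = 1 → h * Y = Y * h) →
    ∀ X ∈ γ, X * Y = Y * X
  sen : ∀ τ : ℂ ≃+* ℂ, ∃ h ∈ γ, h * h = h ∧ c h = 1 ∧ ∀ T ∈ EndAlg L,
    ∀ T' : Module.End ℂ (ℂ ⊗[ℤ] L), EndExt T T' →
      LinearMap.trace ℂ _ (h * T') = τ (LinearMap.trace ℂ V T)
  semisimple : ∀ W : Submodule ℂ ((ℂ ⊗[ℤ] L) [⋀^Fin (Module.finrank ℂ V)]→ₗ[ℂ] ℂ),
    IsStableSpace γ W → ∃ W', IsStableSpace γ W' ∧ IsCompl W W'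

end Pool.Agent.Lib.MP_021685_agP
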