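import Pool.Agent.Lib.MP_021685_agP.PP
import Pool.Agent.Lib.MP_021685_agP.PDi
import Pool.Agent.Lib.MP_021685_agQ.QF

/-!
# The Mumford-Tate conjecture from the middle degree of `A ^ 2`
-/

set_option autoImplicit false
set_option linter.unusedSectionVars false

namespace Pool.Agent.Lib.MP_021685_agP

open Matrix Function Module MP_802513_ag MP_802513_agH MP_802513_agU MP_802513_agS MP_021685_agS
  MP_021685_agQ
open scoped TensorProduct

variable {V : Type*} [AddCommGroup V] [Module ℂ V] {L : AddSubgroup V}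
  {γ : Submodule ℂ (Module.End ℂ (ℂ ⊗[ℤ] L))} {c : Module.End ℂ (ℂ ⊗[ℤ] L) → ℂ}

section Coord

variable {g : ℕ} {b : Basis (Fin (2 * g)) ℝ V}
  {e : Basis (Fin (2 * g)) ℂ (ℂ ⊗[ℤ] L)}
  {D : PData (Fin (2 * g))}

/-- The alternating tensors killed by the conjugates of `J`. -/
def killedJ (D : PData (Fin (2 * g))) (n s : ℕ) :
    Submodule ℂ ((Fin s → Fin n × Fin (2 * g)) → ℂ) where
  carrier := {T | IsAlt T ∧ ∀ σ : ℂ ≃+* ℂ, DM (lift (Fin n) (D.J.map σ)) T = 0}
  add_mem' := by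
    rintro T U ⟨h1, h2⟩ ⟨h1', h2'⟩
    refine ⟨fun σ j => ?_, fun X => by rw [DM_add, h2 X, h2' X, add_zero]⟩
    rw [Pi.add_apply, Pi.add_apply, h1, h1', smul_add]
  zero_mem' := by
    refine ⟨fun σ j => by simp, fun X => ?_⟩
    funext j
    simp [DM]
  smul_mem' := by
    rintro r T ⟨h1, h2⟩
    refine ⟨fun σ j => ?_, fun X => by rw [DM_smul, h2 X, smul_zero]⟩
    rw [Pi.smul_apply, Pi.smul_apply, h1, smul_comm]

theorem killedJ_aut {n s : ℕ} (σ : ℂ ≃+* ℂ) {T : (Fin s → Fin n × Fin (2 * g)) → ℂ}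
    (hT : T ∈ killedJ D n s) : (fun j => σ (T j)) ∈ killedJ D n s := by
  obtain ⟨h1, h2⟩ := hT
  refine ⟨fun τ j => ?_, fun ρ => ?_⟩
  · beta_reduce
    rw [h1, zsmul_eq_mul, zsmul_eq_mul, map_mul, map_intCast]
  · have h3 := h2 (ρ.trans σ.symm)
    have h4 : (lift (Fin n) (D.J.map (ρ.trans σ.symm))).map (σ : ℂ →+* ℂ) =
        lift (Fin n) (D.J.map ρ) := by
      rw [lift_map']
      congr 1
      ext a b
      simp
    funext j
    have h5 := DM_map (σ : ℂ →+* ℂ) (lift (Fin n) (D.J.map (ρ.trans σ.symm))) T j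
    rw [h3, h4] at h5
    exact Eq.trans h5 (map_zero _)

/-- If the conjugates of `J` are in the Lie algebra, the Tate classes are combinations of Hodge
classes. -/
theorem tate_of_J (hb : ∀ w, w ∈ L ↔ ∀ l, ∃ n : ℤ, b.repr w l = n)
    (he : ∀ (l : Fin (2 * g)) (h : b l ∈ L), e l = 1 ⊗ₜ[ℤ] (⟨b l, h⟩ : L)) (hJ : D.J = rc (Jr b))
    (hT : ∀ (n i : ℕ) (θ : (Fin n → ℂ ⊗[ℤ] L) [⋀^Fin (2 * i)]→ₗ[ℂ] ℂ),
      θ ∈ extF ℂ (hodgeC L) n i → IsTate γ c n i θ)
    (hJm : ∀ σ : ℂ ≃+* ℂ, D.J.map σ ∈ skewPart e D γ) (n i : ℕ) :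
    TateHolds (hodgeC L) γ c n i := by
  intro θ hθ
  have h0 : coordL e n (2 * i) θ ∈ killedJ D n (2 * i) := by
    refine ⟨(coordL_hasC e θ).isAlt, fun σ => ?_⟩
    funext j
    have h1 := (isTate_iff hb he hJ (fun i _ η h => h) hT (coordL_hasC e θ)).1 hθ
      (fun a => (j a).1) _ (hJm σ)
    have h2 := congrFun h1 (fun a => (j a).2)
    have h3 := congrFun (DM_lift_slice (D.J.map σ) (coordL e n (2 * i) θ) (fun a => (j a).1))
      (fun a => (j a).2)
    rw [h2] at h3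
    exact h3.symm
  have h1 := le_span_rational (killedJ D n (2 * i)) (fun σ w hw => killedJ_aut σ hw) h0
  have h2 : coordL e n (2 * i) θ ∈ (extF ℂ (hodgeC L) n i).map (coordL e n (2 * i)) := by
    refine (Submodule.span_le.2 ?_) h1
    rintro w ⟨⟨hw1, hw2⟩, q, hq⟩
    have hw : w = fun j => ((q j : ℚ) : ℂ) := funext hq
    have hqa : IsAlt q := by
      intro σ j
      have h3 := hw1 σ j
      rw [hq, hq, zsmul_eq_mul] at h3
      rw [zsmul_eq_mul]
      exact_mod_cast h3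
    obtain ⟨η, hη, -⟩ := exists_form' (b := b) hqa
    have hH : IsHodgeClass (powLattice L n) i η := by
      refine HasCoord.hodge hb (i := i) hη fun j => ?_
      have h3 := congrFun (hw2 (RingEquiv.refl ℂ)) j
      have h4 : D.J.map (RingEquiv.refl ℂ) = D.J := by
        ext a b
        simp
      rw [hw, h4, ← DX_lift, hJ] at h3
      exact h3
    obtain ⟨θ', hθ'⟩ := exists_extension (F := ℂ) hb he hη
    refine ⟨θ', Submodule.subset_span ⟨η, hH, hθ'⟩, ?_⟩
    rw [hw]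
    exact (coordL_hasC e θ').unique ((extends_iff hb he hη).1 hθ')
  obtain ⟨θ', hθ', h3⟩ := h2
  have h4 := coordL_hasC e θ'
  rw [h3] at h4
  rw [(coordL_hasC e θ).ext h4]
  exact hθ'

end Coord

/-- **Mumford-Tate from the middle degree of `A ^ 2`**, every abelian variety. -/
theorem mt_two (hA : IsAbelianVariety L) (hγ : IsGaloisLie L γ c)
    (h2 : TateHolds (hodgeC L) γ c 2 (finrank ℂ V)) (n i : ℕ) : TateHolds (hodgeC L) γ c n i := by
  obtain ⟨B, hB⟩ := hA.polarized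
  obtain ⟨g, b, hL, hb⟩ := exists_basis hA.lattice
  have hg : finrank ℂ V = g := by
    have h3 : finrank ℝ V = 2 * g := by
      rw [Module.finrank_eq_card_basis b, Fintype.card_fin]
    have h4 : finrank ℝ V = 2 * finrank ℂ V := finrank_real_of_complex V
    omega
  have hss := hγ.semisimple
  rw [hg] at hss h2
  obtain ⟨D, hJ, hG⟩ := exists_pdata b hb hB
  obtain ⟨e, he⟩ := exists_latBasis ℂ hb
  have H := tgalH (D := D) hb he hJ hγ.hodge h2 hγ.lie hγ.cochar hss hγ.sen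
  exact tate_of_J hb he hJ hγ.hodge (fun σ => J_map_mem H σ) n i

end Pool.Agent.Lib.MP_021685_agP
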