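import Pool.Agent.Lib.MP_021685_agP.PAe
import Pool.Agent.Lib.MP_021685_agP.PQ

/-!
# A generic Tate class is enough
-/

set_option autoImplicit false
set_option linter.unusedSectionVars false

namespace Pool.Agent.Lib.MP_021685_agP

open Matrix Function Module MP_802513_ag MP_802513_agH MP_802513_agU MP_802513_agS MP_021685_agS
  MP_021685_agQ
open scoped TensorProduct

variable {V : Type*} [AddCommGroup V] [Module ℂ V] {L : AddSubgroup V}

/-- The space of the Tate classes of degree `i` on `A ^ n`. -/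
def tateS (γ : Submodule ℂ (Module.End ℂ (ℂ ⊗[ℤ] L))) (c : Module.End ℂ (ℂ ⊗[ℤ] L) → ℂ) (n i : ℕ) :
    Submodule ℂ ((Fin n → ℂ ⊗[ℤ] L) [⋀^Fin (2 * i)]→ₗ[ℂ] ℂ) where
  carrier := {θ | IsTate γ c n i θ}
  add_mem' := by
    intro θ η hθ hη X hX v
    simp only [AlternatingMap.add_apply, Finset.sum_add_distrib, hθ X hX v, hη X hX v, mul_add]
  zero_mem' := by
    intro X hX v
    simp
  smul_mem' := by
    intro r θ hθ X hX v
    simp only [AlternatingMap.smul_apply, smul_eq_mul]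
    rw [← Finset.mul_sum, hθ X hX v]
    ring

theorem mem_tateS {γ : Submodule ℂ (Module.End ℂ (ℂ ⊗[ℤ] L))} {c : Module.End ℂ (ℂ ⊗[ℤ] L) → ℂ}
    {n i : ℕ} {θ : (Fin n → ℂ ⊗[ℤ] L) [⋀^Fin (2 * i)]→ₗ[ℂ] ℂ} :
    θ ∈ tateS γ c n i ↔ IsTate γ c n i θ := Iff.rfl

/-- **A generic Tate class is enough**: there is a Tate class of degree `i` on `A ^ n` such that the
families of classes of which it is a combination have all the Tate classes as combinations. -/
theorem exists_oneTate (hA : IsAbelianVariety L) (γ : Submodule ℂ (Module.End ℂ (ℂ ⊗[ℤ] L)))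
    (c : Module.End ℂ (ℂ ⊗[ℤ] L) → ℂ) (n i : ℕ) :
    ∃ θ : (Fin n → ℂ ⊗[ℤ] L) [⋀^Fin (2 * i)]→ₗ[ℂ] ℂ, IsTate γ c n i θ ∧
      ∀ {C : ∀ n i : ℕ, Submodule ℚ ((Fin n → V) [⋀^Fin (2 * i)]→ₗ[ℝ] ℝ)}, IsHodgeFamily L C →
        θ ∈ extF ℂ C n i → TateHolds C γ c n i := by
  obtain ⟨g, b, hL, hb⟩ := exists_basis hA.lattice
  obtain ⟨e, he⟩ := exists_latBasis ℂ hb
  obtain ⟨w, hw, hgen⟩ := exists_generic ((tateS γ c n i).map (coordL e n (2 * i)))
  obtain ⟨θ, hθ, hθw⟩ := hw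
  refine ⟨θ, hθ, fun {C} hC hθC => ?_⟩
  obtain ⟨S, hS⟩ : ∃ S, S = Submodule.span ℚ {q : (Fin (2 * i) → Fin n × Fin (2 * g)) → ℚ |
    ∃ η ∈ C n i, HasCoord b η q} := ⟨_, rfl⟩
  have h1 : w ∈ Submodule.span ℂ {w : (Fin (2 * i) → Fin n × Fin (2 * g)) → ℂ |
      ∃ q ∈ S, w = fun j => (q j : ℂ)} := by
    rw [← hθw]
    refine Submodule.span_induction (p := fun θ _ => coordL e n (2 * i) θ ∈
      Submodule.span ℂ {w : (Fin (2 * i) → Fin n × Fin (2 * g)) → ℂ |
      ∃ q ∈ S, w = fun j => (q j : ℂ)}) ?_ ?_ ?_ ?_ hθC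
    · rintro θ ⟨η, hη, hex⟩
      obtain ⟨T', hT'⟩ := MP_802513_agH.exists_tensor (b := b) hb (hC hη)
      have hT1 : HasCoord b η T' := hT'
      rw [(coordL_hasC e θ).unique ((extends_iff hb he hT1).1 hex)]
      refine Submodule.subset_span ⟨T', ?_, rfl⟩
      rw [hS]
      exact Submodule.subset_span ⟨η, hη, hT1⟩
    · rw [map_zero]
      exact zero_mem _
    · intro x y _ _ hx hy
      rw [map_add]
      exact add_mem hx hy
    · intro r x _ hx
      rw [map_smul]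
      exact Submodule.smul_mem _ r hx
  have h2 := le_of_generic hgen S h1
  -- the rational vectors
  have h3 : ∀ q ∈ S, (fun j => (q j : ℂ)) ∈ (extF ℂ C n i).map (coordL e n (2 * i)) := by
    intro q hq
    rw [hS] at hq
    refine Submodule.span_induction (p := fun q _ => (fun j => ((q j : ℚ) : ℂ)) ∈
      (extF ℂ C n i).map (coordL e n (2 * i))) ?_ ?_ ?_ ?_ hq
    · rintro q ⟨η, hη, hq⟩
      obtain ⟨θ', hθ'⟩ := exists_extension (F := ℂ) hb he hq
      refine ⟨θ', Submodule.subset_span ⟨η, hη, hθ'⟩, ?_⟩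
      exact (coordL_hasC e θ').unique ((extends_iff hb he hq).1 hθ')
    · have h4 : (fun j => (((0 : (Fin (2 * i) → Fin n × Fin (2 * g)) → ℚ) j : ℚ) : ℂ)) = 0 := by
        funext j
        exact Rat.cast_zero
      rw [h4]
      exact zero_mem _
    · intro x y _ _ hx hy
      have h4 : (fun j => (((x + y) j : ℚ) : ℂ)) =
          (fun j => ((x j : ℚ) : ℂ)) + fun j => ((y j : ℚ) : ℂ) := by
        funext j
        rw [Pi.add_apply, Pi.add_apply, Rat.cast_add]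
      rw [h4]
      exact add_mem hx hy
    · intro r x _ hx
      have h4 : (fun j => (((r • x) j : ℚ) : ℂ)) = ((r : ℚ) : ℂ) • fun j => ((x j : ℚ) : ℂ) := by
        funext j
        rw [Pi.smul_apply, Pi.smul_apply, smul_eq_mul, smul_eq_mul, Rat.cast_mul]
      rw [h4]
      exact Submodule.smul_mem _ _ hx
  intro θ' hθ'
  have h4 := h2 ⟨θ', hθ', rfl⟩
  have h5 : coordL e n (2 * i) θ' ∈ (extF ℂ C n i).map (coordL e n (2 * i)) := by
    refine (Submodule.span_le.2 ?_) h4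
    rintro _ ⟨q, hq, rfl⟩
    exact h3 q hq
  obtain ⟨θ'', hθ'', h6⟩ := h5
  have h7 := coordL_hasC e θ''
  rw [h6] at h7
  rw [(coordL_hasC e θ').ext h7]
  exact hθ''

end Pool.Agent.Lib.MP_021685_agP
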