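import Pool.Agent.Lib.MP_021685_agP.PDg

/-!
# Galois data: the definition with Pink's theorem
-/

set_option autoImplicit false

open Pool.Agent.Lib.MP_021685_agS
open scoped TensorProduct

namespace Pool.Agent.Lib.MP_021685_agP

variable {V : Type*} [AddCommGroup V] [Module ℂ V] {L : AddSubgroup V}

/-- The family `C` of rational forms, the Lie algebra `γ` of endomorphisms of `H = ℂ ⊗ L` and
the function `c : γ → ℂ` satisfy (for `A = V / L` defined over a number field: `γ` is the Lie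
algebra of the image of the Galois group in `GL (T_ℓ A)`, over `ℂ ⊇ ℚ_ℓ`, and `c` is its cyclotomic
character):

* `lie`: `γ` is closed under brackets;
* `tate`: the classes of `C` are Tate classes for `γ`, `c`;
* `span`: `γ` is spanned by the idempotents `h ∈ γ` with `c h = 1` (Pink: `γ` is generated by the
  derivatives of the conjugates of the Hodge cocharacters);
* `semisimple`: every `γ`-stable space of alternating forms of degree `dim A` on `H` has a
  `γ`-stable complement (Faltings). -/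
structure IsPinkLie (C : ∀ n i : ℕ, Submodule ℚ ((Fin n → V) [⋀^Fin (2 * i)]→ₗ[ℝ] ℝ))
    (γ : Submodule ℂ (Module.End ℂ (ℂ ⊗[ℤ] L))) (c : Module.End ℂ (ℂ ⊗[ℤ] L) → ℂ) : Prop where
  lie : ∀ X ∈ γ, ∀ Y ∈ γ, X * Y - Y * X ∈ γ
  tate : ∀ (n i : ℕ) (θ : (Fin n → ℂ ⊗[ℤ] L) [⋀^Fin (2 * i)]→ₗ[ℂ] ℂ), θ ∈ extF ℂ C n i →
    IsTate γ c n i θ
  span : γ ≤ Submodule.span ℂ {h | h ∈ γ ∧ h * h = h ∧ c h = 1}
  semisimple : ∀ W : Submodule ℂ ((ℂ ⊗[ℤ] L) [⋀^Fin (Module.finrank ℂ V)]→ₗ[ℂ] ℂ),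
    IsStableSpace γ W → ∃ W', IsStableSpace γ W' ∧ IsCompl W W'

end Pool.Agent.Lib.MP_021685_agP
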