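import Pool.Agent.Lib.MP_021685_agP.PK
import Pool.Agent.Lib.MP_021685_agP.PFb

/-!
# Tensors with two groups of slots, from forms on `A ^ 2`
-/

set_option autoImplicit false
set_option linter.unusedSectionVars false

namespace Pool.Agent.Lib.MP_021685_agP

open Matrix Function Module MP_802513_ag MP_802513_agH MP_802513_agU MP_802513_agS MP_021685_agS
open scoped TensorProduct

section Colour

variable {K S T : Type*} [Fintype S] [DecidableEq S] [Fintype T] [DecidableEq T]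

/-- The colours of the slots. -/
def col {N : ℕ} (e : S ⊕ T ≃ Fin N) (s : Fin N) : Fin 2 := Sum.elim (fun _ => 0) (fun _ => 1) (e.symm s)

theorem col_inl {N : ℕ} (e : S ⊕ T ≃ Fin N) (a : S) : col e (e (Sum.inl a)) = 0 := by
  unfold col
  rw [Equiv.symm_apply_apply, Sum.elim_inl]

theorem col_inr {N : ℕ} (e : S ⊕ T ≃ Fin N) (a : T) : col e (e (Sum.inr a)) = 1 := by
  unfold col
  rw [Equiv.symm_apply_apply, Sum.elim_inr]

/-- A permutation which preserves the colours acts by its sign. -/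
theorem col_perm {N : ℕ} (e : S ⊕ T ≃ Fin N) {t : (S ⊕ T → K) → ℂ} (ht : IsAltS t)
    {σ : Equiv.Perm (Fin N)} (hσ : ∀ s, col e (σ s) = col e s) (k : Fin N → K) :
    t (fun a => k (σ (e a))) = (Equiv.Perm.sign σ : ℤ) • t (fun a => k (e a)) := by
  obtain ⟨ρ, hρ⟩ : ∃ ρ : Equiv.Perm (S ⊕ T), ρ = e.symm.permCongr σ := ⟨_, rfl⟩
  have h1 : ∀ a, e (ρ a) = σ (e a) := by
    intro a
    rw [hρ, Equiv.permCongr_apply, Equiv.apply_symm_apply, Equiv.symm_symm]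
  have h2 : Set.MapsTo ρ (Set.range Sum.inl) (Set.range Sum.inl) := by
    rintro _ ⟨a, rfl⟩
    rcases h3 : ρ (Sum.inl a) with b | b
    · exact ⟨b, rfl⟩
    · exfalso
      have h4 := hσ (e (Sum.inl a))
      rw [← h1, h3, col_inl, col_inr] at h4
      exact absurd h4 (by decide)
  obtain ⟨⟨σ1, σ2⟩, h5⟩ := Equiv.Perm.mem_sumCongrHom_range_of_perm_mapsTo_inl h2
  have h6 : ρ = Equiv.Perm.sumCongr σ1 σ2 := h5.symm
  have h7 : (Equiv.Perm.sign σ : ℤ) = (Equiv.Perm.sign σ1 : ℤ) * (Equiv.Perm.sign σ2 : ℤ) := by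
    have h8 : Equiv.Perm.sign σ = Equiv.Perm.sign ρ := by
      rw [hρ, Equiv.Perm.sign_permCongr]
    rw [h8, h6, Equiv.Perm.sign_sumCongr, Units.val_mul]
  have h9 := ht σ1 σ2 (fun a => k (e a))
  rw [h7, ← h9]
  refine congrArg t (funext fun a => ?_)
  rw [← h1, h6]

/-- The slice of the alternation of a tensor which is alternating in two groups of slots. -/
theorem slice_col {N : ℕ} (e : S ⊕ T ≃ Fin N) {t : (S ⊕ T → K) → ℂ} (ht : IsAltS t) : ∃ m : ℕ,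
    m ≠ 0 ∧ ∀ k : Fin N → K, altT (dl (col e) (fun j : Fin N → K => t fun a => j (e a)))
      (fun s => (col e s, k s)) = (m : ℂ) * t (fun a => k (e a)) := by
  classical
  refine ⟨(Finset.univ.filter fun σ : Equiv.Perm (Fin N) => ∀ s, col e (σ s) = col e s).card,
    ?_, fun k => ?_⟩
  · rw [← Nat.pos_iff_ne_zero, Finset.card_pos]
    exact ⟨1, Finset.mem_filter.2 ⟨Finset.mem_univ _, fun s => rfl⟩⟩
  · unfold altT dl
    beta_reduce
    rw [← nsmul_eq_mul, ← Finset.sum_const, Finset.sum_filter]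
    refine Finset.sum_congr rfl fun σ _ => ?_
    by_cases hσ : ∀ s, col e (σ s) = col e s
    · rw [if_pos hσ, if_pos hσ, col_perm e ht hσ k, smul_smul]
      rcases Int.units_eq_one_or (Equiv.Perm.sign σ) with h | h
      · rw [h]
        simp
      · rw [h]
        simp
    · rw [if_neg hσ, if_neg hσ, smul_zero]

end Colour

variable {V : Type*} [AddCommGroup V] [Module ℂ V]
  {L : AddSubgroup V} {g : ℕ} {b : Basis (Fin (2 * g)) ℝ V}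
  {e : Basis (Fin (2 * g)) ℂ (ℂ ⊗[ℤ] L)}
  {C : ∀ n i : ℕ, Submodule ℚ ((Fin n → V) [⋀^Fin (2 * i)]→ₗ[ℝ] ℝ)}
  {D : PData (Fin (2 * g))} {Q : QSys D}
  {γ : Submodule ℂ (Module.End ℂ (ℂ ⊗[ℤ] L))} {c : Module.End ℂ (ℂ ⊗[ℤ] L) → ℂ}

/-- The tensors with two groups of slots. -/
theorem skew_mid (hC : IsStableFamily L C) (hb : ∀ w, w ∈ L ↔ ∀ l, ∃ n : ℤ, b.repr w l = n)
    (he : ∀ (l : Fin (2 * g)) (h : b l ∈ L), e l = 1 ⊗ₜ[ℤ] (⟨b l, h⟩ : L)) (hJ : D.J = rc (Jr b))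
    (hQ : Q.T = QT b C)
    (h1 : ∀ i ≤ 1, ∀ η : (Fin 2 → V) [⋀^Fin (2 * i)]→ₗ[ℝ] ℝ,
      IsHodgeClass (powLattice L 2) i η → η ∈ C 2 i)
    (hT : ∀ (n i : ℕ) (θ : (Fin n → ℂ ⊗[ℤ] L) [⋀^Fin (2 * i)]→ₗ[ℂ] ℂ), θ ∈ extF ℂ C n i →
      IsTate γ c n i θ) {i : ℕ}
    (h2 : ∀ θ : (Fin 2 → ℂ ⊗[ℤ] L) [⋀^Fin (2 * i)]→ₗ[ℂ] ℂ, IsTate γ c 2 i θ → θ ∈ extF ℂ C 2 i)
    {p q : ℕ} (hpq : p + q = 2 * i)
    {t : (Fin p ⊕ Fin q → Fin (2 * g)) → ℂ} (ht : IsAltS t)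
    (hk : ∀ X ∈ skewPart e D γ, DM X t = 0) :
    (fun j : Fin (p + q) → Fin (2 * g) => t fun s => j (finSumFinEquiv s)) ∈ spC Q (p + q) := by
  obtain ⟨E, hE⟩ : ∃ E : Fin p ⊕ Fin q ≃ Fin (2 * i), E = finSumFinEquiv.trans (finCongr hpq) :=
    ⟨_, rfl⟩
  obtain ⟨t', ht'⟩ : ∃ t' : (Fin (2 * i) → Fin (2 * g)) → ℂ, t' = fun j => t (fun s => j (E s)) :=
    ⟨_, rfl⟩
  obtain ⟨θ, hθ⟩ := exists_HasC_form (e := e) (isAlt_altT (dl (col E) t'))
  have hk' : ∀ X ∈ skewPart e D γ, DM X t' = 0 := by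
    intro X hX
    rw [ht', DM_re E X t, hk X hX]
    rfl
  have hθ1 : IsTate γ c 2 i θ := by
    refine (isTate_iff hb he hJ h1 hT hθ).2 fun β Y hY => ?_
    rw [DM_lift_slice, DM_lift_alt_dl, hk' Y hY]
    funext l
    unfold altT dl
    simp
  have h3 := slice_ext hC hb he hQ (h2 θ hθ1) hθ (col E)
  obtain ⟨m, hm, hm2⟩ := slice_col E ht
  have h4 : (fun l : Fin (2 * i) → Fin (2 * g) => altT (dl (col E) t') (fun s => (col E s, l s))) =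
      (m : ℂ) • t' := by
    funext l
    rw [ht']
    exact hm2 l
  rw [h4] at h3
  have hm0 : (m : ℂ) ≠ 0 := Nat.cast_ne_zero.2 hm
  have h5 := Submodule.smul_mem _ ((m : ℂ)⁻¹) h3
  rw [smul_smul, inv_mul_cancel₀ hm0, one_smul] at h5
  have h6 : ∀ w ∈ spF ℂ Q (2 * i), (fun j : Fin (p + q) → Fin (2 * g) =>
      w (fun s => j ((finCongr hpq).symm s))) ∈ spC Q (p + q) := by
    intro w hw
    refine Submodule.span_induction (p := fun w _ => (fun j : Fin (p + q) → Fin (2 * g) =>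
      w (fun s => j ((finCongr hpq).symm s))) ∈ spC Q (p + q)) ?_ ?_ ?_ ?_ hw
    · rintro _ ⟨u, hu, rfl⟩
      exact Submodule.subset_span ⟨_, Q.perm (finCongr hpq).symm hu, rfl⟩
    · exact Submodule.zero_mem _
    · intro x y _ _ hx hy
      exact Submodule.add_mem _ hx hy
    · intro a x _ hx
      exact Submodule.smul_mem _ a hx
  have h7 := h6 t' h5
  have h8 : (fun j : Fin (p + q) → Fin (2 * g) => t' (fun s => j ((finCongr hpq).symm s))) =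
      fun j : Fin (p + q) → Fin (2 * g) => t fun s => j (finSumFinEquiv s) := by
    funext j
    rw [ht', hE]
    rfl
  rw [h8] at h7
  exact h7

/-- The hypotheses in coordinates, from the Tate classes of degree `g` on `A ^ 2`. -/
theorem thyp_mid (hC : IsStableFamily L C) (hb : ∀ w, w ∈ L ↔ ∀ l, ∃ n : ℤ, b.repr w l = n)
    (he : ∀ (l : Fin (2 * g)) (h : b l ∈ L), e l = 1 ⊗ₜ[ℤ] (⟨b l, h⟩ : L)) (hJ : D.J = rc (Jr b))
    (hQ : Q.T = QT b C)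
    (hre : ∀ N ∈ RQ D, (∀ N' ∈ RQ D, N * N' = N' * N) → Nᵀ * D.G = D.G * N)
    (h1 : ∀ i ≤ 1, ∀ η : (Fin 2 → V) [⋀^Fin (2 * i)]→ₗ[ℝ] ℝ,
      IsHodgeClass (powLattice L 2) i η → η ∈ C 2 i)
    (hT : ∀ (n i : ℕ) (θ : (Fin n → ℂ ⊗[ℤ] L) [⋀^Fin (2 * i)]→ₗ[ℂ] ℂ), θ ∈ extF ℂ C n i →
      IsTate γ c n i θ)
    (h2 : ∀ θ : (Fin 2 → ℂ ⊗[ℤ] L) [⋀^Fin (2 * g)]→ₗ[ℂ] ℂ, IsTate γ c 2 g θ → θ ∈ extF ℂ C 2 g)
    (hbr : ∀ X ∈ γ, ∀ Y ∈ γ, X * Y - Y * X ∈ γ)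
    (hHT : ∀ Y : Module.End ℂ (ℂ ⊗[ℤ] L), (∀ h ∈ γ, h * h = h → c h = 1 → h * Y = Y * h) →
      ∀ X ∈ γ, X * Y = Y * X)
    (hss : ∀ W : Submodule ℂ ((ℂ ⊗[ℤ] L) [⋀^Fin g]→ₗ[ℂ] ℂ), IsStableSpace γ W →
      ∃ W', IsStableSpace γ W' ∧ IsCompl W W') : THyp Q (skewPart e D γ) where
  br := fun X hX Y hY => skew_br hbr hX hY
  end_mem := fun N hN => end_mem hC hb hJ hQ h1 hN
  center := hre
  kills := fun X hX d t ht => skew_kills hb he hJ hQ h1 hT hX d t ht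
  two := two_of_mid (fun X hX d t ht => skew_kills hb he hJ hQ h1 hT hX d t ht)
    (fun p q hpq t ht hk => skew_mid hC hb he hJ hQ h1 hT h2 hpq ht hk)
  ht := fun Y hY X hX => skew_ht hb he hJ h1 hT hHT hY hX
  ss := fun r hr W hWa hW => by
    have h3 : g = r := by omega
    subst h3
    exact skew_ss hb he hJ h1 hT hss hWa hW

end Pool.Agent.Lib.MP_021685_agP
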