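import Pool.Agent.Lib.MP_021685_agP.PQ

/-!
# Restriction of the Tate classes to smaller powers
-/

set_option autoImplicit false
set_option linter.unusedSectionVars false

namespace Pool.Agent.Lib.MP_021685_agP

open Matrix Function Module MP_802513_ag MP_802513_agH MP_802513_agU MP_802513_agS MP_021685_agS
  MP_021685_agQ
open scoped TensorProduct

/-- The map between the powers of a module given by a matrix of integers. -/
noncomputable def imap (R : Type*) {M : Type*} [CommRing R] [AddCommGroup M] [Module R M] {m n : ℕ}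
    (ε : Fin m → Fin n → ℤ) : (Fin n → M) →ₗ[R] (Fin m → M) where
  toFun v a := ∑ k, ε a k • v k
  map_add' v w := by
    funext a
    simp only [Pi.add_apply, smul_add, Finset.sum_add_distrib]
  map_smul' r v := by
    funext a
    simp only [Pi.smul_apply, RingHom.id_apply, Finset.smul_sum]
    refine Finset.sum_congr rfl fun k _ => ?_
    rw [smul_comm]

theorem imap_apply {R M : Type*} [CommRing R] [AddCommGroup M] [Module R M] {m n : ℕ}
    (ε : Fin m → Fin n → ℤ) (v : Fin n → M) (a : Fin m) : imap R ε v a = ∑ k, ε a k • v k := rfl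

variable {V : Type*} [AddCommGroup V] [Module ℂ V] {L : AddSubgroup V}

theorem imap_mem {m n : ℕ} (ε : Fin m → Fin n → ℤ) (v : Fin n → V) (hv : v ∈ powLattice L n) :
    imap ℂ ε v ∈ powLattice L m := by
  intro a _
  rw [imap_apply]
  exact L.sum_mem fun k _ => L.zsmul_mem (hv k (Set.mem_univ k)) _

theorem extends_imap {m n s : ℕ} (ε : Fin m → Fin n → ℤ)
    {θ : (Fin m → ℂ ⊗[ℤ] L) [⋀^Fin s]→ₗ[ℂ] ℂ} {η : (Fin m → V) [⋀^Fin s]→ₗ[ℝ] ℝ}
    (h : Extends θ η) : Extends (θ.compLinearMap (imap ℂ ε))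
      (η.compLinearMap ((imap ℂ ε).restrictScalars ℝ)) := by
  intro v
  obtain ⟨q, h1, h2⟩ := h fun j a => ∑ k, ε a k • v j k
  refine ⟨q, ?_, ?_⟩
  · rw [← h1, AlternatingMap.compLinearMap_apply]
    congr 1
    funext j a
    show imap ℂ ε (fun a => (v j a : V)) a = _
    rw [imap_apply, AddSubgroup.val_finsetSum]
    refine Finset.sum_congr rfl fun k _ => ?_
    rw [AddSubgroupClass.coe_zsmul]
  · rw [← h2, AlternatingMap.compLinearMap_apply]
    congr 1
    funext j a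
    show imap ℂ ε (fun a => (1 : ℂ) ⊗ₜ[ℤ] v j a) a = _
    rw [imap_apply, TensorProduct.tmul_sum]
    refine Finset.sum_congr rfl fun k _ => ?_
    rw [TensorProduct.tmul_smul]

theorem extF_imap {C : ∀ n i : ℕ, Submodule ℚ ((Fin n → V) [⋀^Fin (2 * i)]→ₗ[ℝ] ℝ)}
    (hC : IsStableFamily L C) {m n i : ℕ} (ε : Fin m → Fin n → ℤ)
    {θ : (Fin m → ℂ ⊗[ℤ] L) [⋀^Fin (2 * i)]→ₗ[ℂ] ℂ} (h : θ ∈ extF ℂ C m i) :
    θ.compLinearMap (imap ℂ ε) ∈ extF ℂ C n i := by
  refine Submodule.span_induction (p := fun θ _ =>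
    θ.compLinearMap (imap ℂ ε) ∈ extF ℂ C n i) ?_ ?_ ?_ ?_ h
  · rintro θ ⟨η, hη, hθ⟩
    exact Submodule.subset_span ⟨_, hC.pull (imap_mem ε) hη, extends_imap ε hθ⟩
  · exact Submodule.zero_mem _
  · intro x y _ _ hx hy
    exact Submodule.add_mem _ hx hy
  · intro r x _ hx
    exact Submodule.smul_mem _ r hx

theorem isTate_imap {γ : Submodule ℂ (Module.End ℂ (ℂ ⊗[ℤ] L))} {c : Module.End ℂ (ℂ ⊗[ℤ] L) → ℂ}
    {m n i : ℕ} (ε : Fin m → Fin n → ℤ) {θ : (Fin m → ℂ ⊗[ℤ] L) [⋀^Fin (2 * i)]→ₗ[ℂ] ℂ}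
    (h : IsTate γ c m i θ) : IsTate γ c n i (θ.compLinearMap (imap ℂ ε)) := by
  intro X hX v
  have h1 := h X hX fun j => imap ℂ ε (v j)
  rw [AlternatingMap.compLinearMap_apply]
  refine Eq.trans (Finset.sum_congr rfl fun s _ => ?_) h1
  rw [AlternatingMap.compLinearMap_apply]
  congr 1
  funext j
  rcases eq_or_ne j s with rfl | hj
  · rw [update_self, update_self]
    funext a
    rw [imap_apply, imap_apply, map_sum]
    refine Finset.sum_congr rfl fun k _ => ?_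
    rw [map_zsmul]
  · rw [update_of_ne hj, update_of_ne hj]

/-- The Tate conjecture for the classes of degree `i` on `A ^ m` implies it on `A ^ n`, if the classes
of degree `i` on `A ^ n` are restrictions of classes on `A ^ m`. -/
theorem tateHolds_of_retract {C : ∀ n i : ℕ, Submodule ℚ ((Fin n → V) [⋀^Fin (2 * i)]→ₗ[ℝ] ℝ)}
    (hC : IsStableFamily L C) {γ : Submodule ℂ (Module.End ℂ (ℂ ⊗[ℤ] L))}
    {c : Module.End ℂ (ℂ ⊗[ℤ] L) → ℂ} {m n i : ℕ} (ε : Fin m → Fin n → ℤ) (δ : Fin n → Fin m → ℤ)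
    (h : ∀ θ : (Fin n → ℂ ⊗[ℤ] L) [⋀^Fin (2 * i)]→ₗ[ℂ] ℂ,
      (θ.compLinearMap (imap ℂ δ)).compLinearMap (imap ℂ ε) = θ)
    (hT : TateHolds C γ c m i) : TateHolds C γ c n i := by
  intro θ hθ
  rw [← h θ]
  exact extF_imap hC ε (hT _ (isTate_imap δ hθ))

/-- From `A ^ m` to `A ^ n`, `n ≤ m`. -/
theorem tateHolds_le {C : ∀ n i : ℕ, Submodule ℚ ((Fin n → V) [⋀^Fin (2 * i)]→ₗ[ℝ] ℝ)}
    (hC : IsStableFamily L C) {γ : Submodule ℂ (Module.End ℂ (ℂ ⊗[ℤ] L))}
    {c : Module.End ℂ (ℂ ⊗[ℤ] L) → ℂ} {m n i : ℕ} (hnm : n ≤ m)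
    (hT : TateHolds C γ c m i) : TateHolds C γ c n i := by
  refine tateHolds_of_retract hC (fun a k => if a.val = k.val then 1 else 0)
    (fun k a => if a.val = k.val then 1 else 0) (fun θ => ?_) hT
  ext v
  rw [AlternatingMap.compLinearMap_apply, AlternatingMap.compLinearMap_apply]
  congr 1
  funext j k
  show imap ℂ _ (imap ℂ _ (v j)) k = v j k
  rw [imap_apply, Finset.sum_eq_single (Fin.castLE hnm k)]
  · rw [imap_apply, Finset.sum_eq_single k]
    · simp
    · intro k' _ hk'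
      rw [if_neg, zero_smul]
      intro h1
      exact hk' (Fin.ext (by simpa using h1.symm))
    · intro h1
      exact absurd (Finset.mem_univ _) h1
  · intro a _ ha
    rw [if_neg, zero_smul]
    intro h1
    exact ha (Fin.ext (by simpa using h1))
  · intro h1
    exact absurd (Finset.mem_univ _) h1

/-- The classes of degree zero. -/
theorem tateHolds_zero {C : ∀ n i : ℕ, Submodule ℚ ((Fin n → V) [⋀^Fin (2 * i)]→ₗ[ℝ] ℝ)}
    (hC : IsStableFamily L C) {γ : Submodule ℂ (Module.End ℂ (ℂ ⊗[ℤ] L))}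
    {c : Module.End ℂ (ℂ ⊗[ℤ] L) → ℂ} {m n : ℕ} (hT : TateHolds C γ c m 0) :
    TateHolds C γ c n 0 := by
  refine tateHolds_of_retract hC (fun _ _ => 0) (fun _ _ => 0) (fun θ => ?_) hT
  have hE : IsEmpty (Fin (2 * 0)) := inferInstanceAs (IsEmpty (Fin 0))
  ext v
  rw [AlternatingMap.compLinearMap_apply, AlternatingMap.compLinearMap_apply]
  exact congrArg θ (Subsingleton.elim _ _)

end Pool.Agent.Lib.MP_021685_agP
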