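import Pool.Agent.Lib.MP_021685_agP.PY
import Pool.Agent.Lib.MP_021685_agP.PL
import Pool.Agent.Lib.MP_021685_agP.PR
import Pool.Agent.Lib.MP_021685_agP.PDk
import Pool.Agent.Lib.MP_802513_agS.GM

/-!
# The Tate classes of bounded degree are enough
-/

set_option autoImplicit false
set_option linter.unusedSectionVars false

namespace Pool.Agent.Lib.MP_021685_agP

open Matrix Function Module MP_802513_ag MP_802513_agH MP_802513_agU MP_802513_agS MP_021685_agS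
open scoped TensorProduct

variable {V : Type*} [AddCommGroup V] [Module ℂ V] {L : AddSubgroup V}
  {γ : Submodule ℂ (Module.End ℂ (ℂ ⊗[ℤ] L))} {c : Module.End ℂ (ℂ ⊗[ℤ] L) → ℂ}
  {C : ∀ n i : ℕ, Submodule ℚ ((Fin n → V) [⋀^Fin (2 * i)]→ₗ[ℝ] ℝ)}

theorem IsPinkLie.cochar (h : IsPinkLie C γ c) (Y : Module.End ℂ (ℂ ⊗[ℤ] L))
    (hY : ∀ h ∈ γ, h * h = h → c h = 1 → h * Y = Y * h) (X : Module.End ℂ (ℂ ⊗[ℤ] L))
    (hX : X ∈ γ) : X * Y = Y * X := by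
  refine Submodule.span_induction (p := fun X _ => X * Y = Y * X) ?_ ?_ ?_ ?_ (h.span hX)
  · rintro Z ⟨hZ, hZ2, hZ3⟩
    exact hY Z hZ hZ2 hZ3
  · rw [zero_mul, mul_zero]
  · intro A B _ _ hA hB
    rw [add_mul, mul_add, hA, hB]
  · intro c A _ hA
    rw [smul_mul_assoc, mul_smul_comm, hA]

theorem IsPinkLie.tateLie (h : IsPinkLie C γ c) : IsTateLie C γ c :=
  ⟨h.lie, h.tate, h.cochar, h.semisimple⟩

section Coord

variable {g : ℕ} {b : Basis (Fin (2 * g)) ℝ V}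
  {e : Basis (Fin (2 * g)) ℂ (ℂ ⊗[ℤ] L)}
  {D : PData (Fin (2 * g))} {Q : QSys D}

/-- The skew part is spanned by its involutions. -/
theorem skew_span (hb : ∀ w, w ∈ L ↔ ∀ l, ∃ n : ℤ, b.repr w l = n)
    (he : ∀ (l : Fin (2 * g)) (h : b l ∈ L), e l = 1 ⊗ₜ[ℤ] (⟨b l, h⟩ : L)) (hJ : D.J = rc (Jr b))
    (h1 : ∀ i ≤ 1, ∀ η : (Fin 2 → V) [⋀^Fin (2 * i)]→ₗ[ℝ] ℝ,
      IsHodgeClass (powLattice L 2) i η → η ∈ C 2 i) (hγ : IsPinkLie C γ c)
    {Y : Matrix (Fin (2 * g)) (Fin (2 * g)) ℂ} (hY : Y ∈ skewPart e D γ) :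
    Y ∈ Submodule.span ℂ {Z | Z ∈ skewPart e D γ ∧ Z * Z = 1} := by
  obtain ⟨S, hS⟩ : ∃ S, S = Submodule.span ℂ {Z | Z ∈ skewPart e D γ ∧ Z * Z = 1} := ⟨_, rfl⟩
  rw [← hS]
  -- every element of the Lie algebra is in the span up to a scalar
  have key : ∀ X ∈ Submodule.span ℂ {h | h ∈ γ ∧ h * h = h ∧ c h = 1}, ∃ Z ∈ S, ∃ a : ℂ,
      LinearMap.toMatrix e e X = Z + a • (1 : Matrix _ _ ℂ) := by
    intro X hX
    refine Submodule.span_induction (p := fun X _ => ∃ Z ∈ S, ∃ a : ℂ,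
      LinearMap.toMatrix e e X = Z + a • (1 : Matrix _ _ ℂ)) ?_ ?_ ?_ ?_ hX
    · rintro h ⟨hh, hid, hc⟩
      have h3 := skew_mem hb he hJ h1 hγ.tate hh
      rw [hc] at h3
      have h4 := (skewPart e D γ).smul_mem (2 : ℂ) h3
      obtain ⟨m, hm⟩ : ∃ m, m = LinearMap.toMatrix e e h := ⟨_, rfl⟩
      rw [← hm] at h4 ⊢
      have hmm : m * m = m := by
        rw [hm, ← LinearMap.toMatrix_mul, hid]
      have h6 : (2 : ℂ) • (m - ((1 : ℂ) / 2) • (1 : Matrix _ _ ℂ)) = (2 : ℂ) • m - 1 := by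
        rw [smul_sub, smul_smul]
        norm_num
      rw [h6] at h4
      refine ⟨(1 / 2 : ℂ) • ((2 : ℂ) • m - 1), ?_, 1 / 2, ?_⟩
      · rw [hS]
        refine Submodule.smul_mem _ _ (Submodule.subset_span ⟨h4, ?_⟩)
        rw [sub_mul, mul_sub, smul_mul_smul_comm, hmm, mul_one, one_mul]
        module
      · module
    · refine ⟨0, zero_mem _, 0, ?_⟩
      rw [map_zero, zero_smul, add_zero]
    · rintro A B _ _ ⟨Z, hZ, a, ha⟩ ⟨Z', hZ', a', ha'⟩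
      refine ⟨Z + Z', add_mem hZ hZ', a + a', ?_⟩
      rw [map_add, ha, ha']
      module
    · rintro r A _ ⟨Z, hZ, a, ha⟩
      refine ⟨r • Z, Submodule.smul_mem _ _ hZ, r * a, ?_⟩
      rw [map_smul, ha]
      module
  have hSk : S ≤ skewPart e D γ := by
    rw [hS, Submodule.span_le]
    exact fun Z hZ => hZ.1
  obtain ⟨hs, a, ha⟩ := hY
  obtain ⟨Z, hZ, a', hZa⟩ := key _ (hγ.span ha)
  have h3 : Y + a • (1 : Matrix _ _ ℂ) = Z + a' • (1 : Matrix _ _ ℂ) := by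
    rw [← hZa, map_add, LinearMap.toMatrix_toLin, map_smul, Module.End.one_eq_id,
      LinearMap.toMatrix_id]
  have h4 : Y = Z + (a' - a) • (1 : Matrix _ _ ℂ) := by
    rw [sub_smul, ← add_sub_assoc, ← h3, add_sub_cancel_right]
  obtain ⟨hsZ, -⟩ := hSk hZ
  -- the scalar is skew, so zero
  have h5 : (a' - a) • (1 : Matrix (Fin (2 * g)) (Fin (2 * g)) ℂ) = 0 := by
    obtain ⟨r, hr⟩ : ∃ r, r = a' - a := ⟨_, rfl⟩
    rw [← hr] at h4 ⊢
    rw [h4] at hs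
    rw [Matrix.transpose_add, Matrix.transpose_smul, Matrix.transpose_one, Matrix.add_mul,
      Matrix.mul_add, Matrix.smul_mul, Matrix.mul_smul, Matrix.one_mul, Matrix.mul_one] at hs
    have h6 : (2 * r) • D.G.map (fun q : ℚ => (q : ℂ)) = 0 := by
      calc (2 * r) • D.G.map (fun q : ℚ => (q : ℂ))
          = (Zᵀ * D.G.map (fun q : ℚ => (q : ℂ)) + r • D.G.map (fun q : ℚ => (q : ℂ)) +
            (D.G.map (fun q : ℚ => (q : ℂ)) * Z + r • D.G.map (fun q : ℚ => (q : ℂ)))) -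
            (Zᵀ * D.G.map (fun q : ℚ => (q : ℂ)) + D.G.map (fun q : ℚ => (q : ℂ)) * Z) := by
            module
        _ = 0 := by rw [hs, hsZ, sub_zero]
    have h7 : IsUnit (D.Gc).det := isUnit_Gc
    have h8 : (2 * r) • D.Gc = 0 := h6
    have h9 := congrArg (fun M => M * D.Gc⁻¹) h8
    beta_reduce at h9
    rw [smul_mul_assoc, Matrix.mul_nonsing_inv _ h7, Matrix.zero_mul] at h9
    have h10 : r • (1 : Matrix (Fin (2 * g)) (Fin (2 * g)) ℂ) = (1 / 2 : ℂ) •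
        ((2 * r) • (1 : Matrix (Fin (2 * g)) (Fin (2 * g)) ℂ)) := by
      rw [smul_smul]
      congr 1
      ring
    rw [h10, h9, smul_zero]
  rw [h4, h5, add_zero]
  exact hZ

/-- The hypotheses in coordinates, without hypothesis on the centre or on the traces. -/
theorem tpink (hC : IsStableFamily L C) (hb : ∀ w, w ∈ L ↔ ∀ l, ∃ n : ℤ, b.repr w l = n)
    (he : ∀ (l : Fin (2 * g)) (h : b l ∈ L), e l = 1 ⊗ₜ[ℤ] (⟨b l, h⟩ : L)) (hJ : D.J = rc (Jr b))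
    (hQ : Q.T = QT b C)
    (h1 : ∀ i ≤ 1, ∀ η : (Fin 2 → V) [⋀^Fin (2 * i)]→ₗ[ℝ] ℝ,
      IsHodgeClass (powLattice L 2) i η → η ∈ C 2 i) (hγ : IsPinkLie C γ c)
    (h2 : ∀ θ : (Fin 2 → ℂ ⊗[ℤ] L) [⋀^Fin (2 * g)]→ₗ[ℂ] ℂ, IsTate γ c 2 g θ → θ ∈ extF ℂ C 2 g)
    (hss : ∀ W : Submodule ℂ ((ℂ ⊗[ℤ] L) [⋀^Fin g]→ₗ[ℂ] ℂ), IsStableSpace γ W →
      ∃ W', IsStableSpace γ W' ∧ IsCompl W W') :
    TPink Q (skewPart e D γ) where
  br := fun X hX Y hY => skew_br hγ.lie hX hY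
  kills := fun X hX d t ht => skew_kills hb he hJ hQ h1 hγ.tate hX d t ht
  two := two_of_mid (fun X hX d t ht => skew_kills hb he hJ hQ h1 hγ.tate hX d t ht)
    (fun p q hpq t ht hk => skew_mid hC hb he hJ hQ h1 hγ.tate h2 hpq ht hk)
  span := fun Y hY => skew_span hb he hJ h1 hγ hY
  ss := fun r hr W hWa hW => by
    have h3 : g = r := by omega
    subst h3
    exact skew_ss hb he hJ h1 hγ.tate hss hWa hW

/-- The invariants of degree `2 i` are in the system, if the Tate classes of degree `i` on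
`A ^ (2 i)` are combinations of classes of the family. -/
theorem inv_mem (hC : IsStableFamily L C) (hb : ∀ w, w ∈ L ↔ ∀ l, ∃ n : ℤ, b.repr w l = n)
    (he : ∀ (l : Fin (2 * g)) (h : b l ∈ L), e l = 1 ⊗ₜ[ℤ] (⟨b l, h⟩ : L)) (hJ : D.J = rc (Jr b))
    (hQ : Q.T = QT b C)
    (h1 : ∀ i ≤ 1, ∀ η : (Fin 2 → V) [⋀^Fin (2 * i)]→ₗ[ℝ] ℝ,
      IsHodgeClass (powLattice L 2) i η → η ∈ C 2 i)
    (hT : ∀ (n i : ℕ) (θ : (Fin n → ℂ ⊗[ℤ] L) [⋀^Fin (2 * i)]→ₗ[ℂ] ℂ), θ ∈ extF ℂ C n i →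
      IsTate γ c n i θ) {n i : ℕ} (hn : n = 2 * i) (h : TateHolds C γ c (2 * i) i)
    {t : (Fin n → Fin (2 * g)) → ℂ} (hk : ∀ X ∈ skewPart e D γ, DM X t = 0) : t ∈ spC Q n := by
  subst hn
  obtain ⟨θ, hθ⟩ := exists_HasC_form (e := e) (isAlt_altT (dl (id : Fin (2 * i) → Fin (2 * i)) t))
  have hθ1 : IsTate γ c (2 * i) i θ := by
    refine (isTate_iff hb he hJ h1 hT hθ).2 fun β Y hY => ?_
    rw [DM_lift_slice, DM_lift_alt_dl, hk Y hY]
    funext l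
    unfold altT dl
    simp
  have h3 := slice_ext hC hb he hQ (h θ hθ1) hθ (id : Fin (2 * i) → Fin (2 * i))
  have h4 : (fun l : Fin (2 * i) → Fin (2 * g) =>
      altT (dl (id : Fin (2 * i) → Fin (2 * i)) t) (fun s => (id s, l s))) = t := by
    funext l
    rw [← mlT_eq]
    exact mlT_id t l
  rw [h4] at h3
  exact h3

end Coord

/-- **The Tate classes of bounded degree are enough**, every abelian variety. -/
theorem tate_all (hA : IsAbelianVariety L) (hC : IsStableFamily L C)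
    (h1 : ∀ i ≤ 1, ∀ η, IsHodgeClass (powLattice L 2) i η → η ∈ C 2 i)
    (hγ : IsPinkLie C γ c)
    (h : ∀ i : ℕ, 2 * i ≤ finrank ℂ V * (2 * finrank ℂ V - 1) ^ (finrank ℂ V - 1) ∨
      i ≤ finrank ℂ V → TateHolds C γ c (2 * i) i) (n i : ℕ) : TateHolds C γ c n i := by
  have h2 : TateHolds C γ c 2 (finrank ℂ V) := by
    rcases Nat.eq_zero_or_pos (finrank ℂ V) with h0 | h0
    · have h3 := h 0 (Or.inr (Nat.zero_le _))
      have h4 : TateHolds C γ c 2 0 := tateHolds_zero hC h3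
      rw [h0]
      exact h4
    · exact tateHolds_le hC (by omega) (h (finrank ℂ V) (Or.inr le_rfl))
  obtain ⟨B, hB⟩ := hA.polarized
  obtain ⟨g, b, hL, hb⟩ := exists_basis hA.lattice
  have hg : finrank ℂ V = g := finrank_of_basis b
  have hss := hγ.semisimple
  rw [hg] at hss h2 h
  obtain ⟨D, hJ, hG⟩ := exists_pdata b hb hB
  obtain ⟨Q, hQ⟩ := exists_QSys hC hL hb h1 hJ
  obtain ⟨e, he⟩ := exists_latBasis ℂ hb
  have H := tpink hC hb he hJ hQ h1 hγ h2 hss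
  intro θ hθ
  obtain ⟨T, hTθ⟩ := exists_HasC (e := e) θ
  refine ext_of_slices hC hb he hQ hTθ fun α => ?_
  refine core_tnT H (fun m hm hev t ht => ?_) fun X hX =>
    (isTate_iff hb he hJ h1 hγ.tate hTθ).1 hθ α X hX
  obtain ⟨r, hr⟩ := hev
  have hr' : m = 2 * r := by rw [hr, two_mul]
  refine inv_mem hC hb he hJ hQ h1 hγ.tate hr' (h r (Or.inl ?_)) ht
  rwa [← hr']

end Pool.Agent.Lib.MP_021685_agP
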