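import Pool.Agent.Lib.MP_021685_agP.PAf
import Pool.Agent.Lib.MP_021685_agP.PZ

/-!
# One degree on one power is enough
-/

set_option autoImplicit false
set_option linter.unusedSectionVars false

namespace Pool.Agent.Lib.MP_021685_agP

open Matrix Function Module MP_802513_ag MP_802513_agH MP_802513_agU MP_802513_agS MP_021685_agS
open scoped TensorProduct

section Frame

variable {N : Type*} [Fintype N] [DecidableEq N]

/-- The invariants with two slots less. -/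
theorem pad_step (C : TSys N) (hN : 0 < Fintype.card N)
    {G : Submodule ℂ (Matrix (N ⊕ N) (N ⊕ N) ℂ)} (hG : G ≤ ann C) {m : ℕ}
    (h : ∀ w : (Fin (m + 2) → N ⊕ N) → ℂ, (∀ X ∈ G, DM X w = 0) → w ∈ C.T (m + 2))
    {w : (Fin m → N ⊕ N) → ℂ} (hw : ∀ X ∈ G, DM X w = 0) : w ∈ C.T m := by
  obtain ⟨ω, hω⟩ : ∃ ω : (Fin 2 → N ⊕ N) → ℂ, ω = fun j => Om N (j 0) (j 1) := ⟨_, rfl⟩
  have hωk : ∀ X ∈ G, DM X ω = 0 := by
    intro X hX
    rw [hω]
    exact hG hX _ _ C.form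
  have h1 : (fun j : Fin (m + 2) → N ⊕ N => w (fun a => j (Fin.castAdd 2 a)) *
      ω (fun a => j (Fin.natAdd m a))) ∈ C.T (m + 2) := by
    refine h _ fun X hX => ?_
    funext j
    rw [GG_DM_mul X w ω j, hw X hX, hωk X hX]
    simp
  have h2 := C.contr h1
  obtain ⟨s, hs⟩ : ∃ s : ℂ, s = ∑ a, ∑ b, Om N a b * Om N a b := ⟨_, rfl⟩
  have h3 : (fun j : Fin m → N ⊕ N => ∑ a, ∑ b, Om N a b *
      (w (fun c => (Fin.append j ![a, b] : Fin (m + 2) → N ⊕ N) (Fin.castAdd 2 c)) *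
      ω (fun c => (Fin.append j ![a, b] : Fin (m + 2) → N ⊕ N) (Fin.natAdd m c)))) = s • w := by
    funext j
    rw [Pi.smul_apply, smul_eq_mul, hs, Finset.sum_mul]
    refine Finset.sum_congr rfl fun a _ => ?_
    rw [Finset.sum_mul]
    refine Finset.sum_congr rfl fun b _ => ?_
    have e1 : (fun c => (Fin.append j ![a, b] : Fin (m + 2) → N ⊕ N) (Fin.castAdd 2 c)) = j := by
      funext c
      exact Fin.append_left _ _ c
    have e2 : (fun c => (Fin.append j ![a, b] : Fin (m + 2) → N ⊕ N) (Fin.natAdd m c)) =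
        ![a, b] := by
      funext c
      exact Fin.append_right _ _ c
    rw [e1, e2, hω]
    show Om N a b * (w j * Om N a b) = Om N a b * Om N a b * w j
    ring
  rw [h3] at h2
  have h4 : s ≠ 0 := by
    have h5 : s = 2 * (Fintype.card N : ℂ) := by
      rw [hs]
      have h6 : ∀ a b : N ⊕ N, Om N a b * Om N a b =
          if a = Sum.swap b then (1 : ℂ) else 0 := by
        intro a b
        unfold Om
        rcases a with a | a <;> rcases b with b | b <;> simp [Matrix.one_apply] <;> split_ifs <;>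
          simp
      simp only [h6]
      have h7 : ∀ a : N ⊕ N, ∑ b : N ⊕ N, (if a = Sum.swap b then (1 : ℂ) else 0) = 1 := by
        intro a
        rw [Finset.sum_eq_single (Sum.swap a)]
        · rw [if_pos (Sum.swap_swap a).symm]
        · intro b _ hb
          rw [if_neg]
          intro h8
          exact hb (by rw [h8, Sum.swap_swap])
        · intro h8
          exact absurd (Finset.mem_univ _) h8
      simp only [h7]
      rw [Finset.sum_const, Finset.card_univ, Fintype.card_sum, nsmul_eq_mul, mul_one]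
      push_cast
      ring
    rw [h5]
    have h6 : (Fintype.card N : ℂ) ≠ 0 := Nat.cast_ne_zero.2 hN.ne'
    exact mul_ne_zero two_ne_zero h6
  have h5 := (C.T m).smul_mem s⁻¹ h2
  rw [smul_smul, inv_mul_cancel₀ h4, one_smul] at h5
  exact h5

/-- The invariants with fewer slots. -/
theorem pad_fewer (C : TSys N) (hN : 0 < Fintype.card N)
    {G : Submodule ℂ (Matrix (N ⊕ N) (N ⊕ N) ℂ)} (hG : G ≤ ann C) {m n r : ℕ} (hm : m = n + 2 * r)
    (h : ∀ w : (Fin m → N ⊕ N) → ℂ, (∀ X ∈ G, DM X w = 0) → w ∈ C.T m)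
    {w : (Fin n → N ⊕ N) → ℂ} (hw : ∀ X ∈ G, DM X w = 0) : w ∈ C.T n := by
  induction r generalizing m with
  | zero =>
    have h1 : m = n := by omega
    subst h1
    exact h w hw
  | succ r ih =>
    refine ih rfl fun w' hw' => ?_
    have h1 : m = n + 2 * r + 2 := by omega
    subst h1
    exact pad_step C hN hG h hw'

end Frame

variable {V : Type*} [AddCommGroup V] [Module ℂ V] {L : AddSubgroup V}
  {γ : Submodule ℂ (Module.End ℂ (ℂ ⊗[ℤ] L))} {c : Module.End ℂ (ℂ ⊗[ℤ] L) → ℂ}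
  {C : ∀ n i : ℕ, Submodule ℚ ((Fin n → V) [⋀^Fin (2 * i)]→ₗ[ℝ] ℝ)}

/-- **One degree on one power**: from the Tate classes of degree `m` on `A ^ (2 m)` to the Tate
classes of degree at most `m` on all the powers. -/
theorem tateHolds_deg (hA : IsAbelianVariety L) (hC : IsStableFamily L C)
    (h1 : ∀ i ≤ 1, ∀ η, IsHodgeClass (powLattice L 2) i η → η ∈ C 2 i)
    (hT : ∀ (n i : ℕ) (θ : (Fin n → ℂ ⊗[ℤ] L) [⋀^Fin (2 * i)]→ₗ[ℂ] ℂ), θ ∈ extF ℂ C n i →
      IsTate γ c n i θ) (h0 : 0 < finrank ℂ V) {m n i : ℕ} (him : i ≤ m)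
    (h : TateHolds C γ c (2 * m) m) : TateHolds C γ c n i := by
  obtain ⟨B, hB⟩ := hA.polarized
  obtain ⟨g, b, hL, hb⟩ := exists_basis hA.lattice
  have hg : finrank ℂ V = g := finrank_of_basis b
  rw [hg] at h0
  obtain ⟨D, hJ, hG⟩ := exists_pdata b hb hB
  obtain ⟨Q, hQ⟩ := exists_QSys hC hL hb h1 hJ
  obtain ⟨e, he⟩ := exists_latBasis ℂ hb
  obtain ⟨g', ⟨Fr⟩⟩ := exists_frM D
  have hgg : g' = g := by
    have h1 := E_card_frame Fr
    omega
  subst hgg
  have hle : PE_g Fr (skewPart e D γ) ≤ ann (Q.CF Fr) := by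
    intro Z hZ
    rw [← PE_out Fr Z]
    exact Q.ann_of_annL Fr fun d u hu => skew_kills hb he hJ hQ h1 hT hZ d u hu
  have hN : 0 < Fintype.card (Fin g') := by
    rw [Fintype.card_fin]
    exact h0
  have hm : ∀ w : (Fin (2 * m) → Fin g' ⊕ Fin g') → ℂ,
      (∀ X ∈ PE_g Fr (skewPart e D γ), DM X w = 0) → w ∈ (Q.CF Fr).T (2 * m) := by
    intro w hw
    rw [← PE_PM_FF' Fr w]
    refine PE_spC Fr (inv_mem hC hb he hJ hQ h1 hT rfl h fun X hX => ?_)
    rw [PE_DM', hw _ (PE_to_g Fr hX), PM_zero']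
  intro θ hθ
  obtain ⟨T, hTθ⟩ := exists_HasC (e := e) θ
  refine ext_of_slices hC hb he hQ hTθ fun α => ?_
  obtain ⟨t, ht⟩ : ∃ t : (Fin (2 * i) → Fin (2 * g')) → ℂ, t = fun l => T fun s => (α s, l s) :=
    ⟨_, rfl⟩
  have hk : ∀ X ∈ skewPart e D γ, DM X t = 0 := by
    rw [ht]
    exact fun X hX => (isTate_iff hb he hJ h1 hT hTθ).1 hθ α X hX
  rw [← ht]
  have h3 : PM Fr.F t ∈ (Q.CF Fr).T (2 * i) := by
    refine pad_fewer (Q.CF Fr) hN hle (r := m - i) (by omega) hm fun X hX => ?_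
    rw [PE_DM, hk _ (PE_mem_g.1 hX), PM_zero']
  have h4 := PE_spC' Fr h3
  rw [PE_PM_F'F] at h4
  exact h4

/-- **One class on one power is enough**, every abelian variety. -/
theorem tate_one (hA : IsAbelianVariety L) (γ : Submodule ℂ (Module.End ℂ (ℂ ⊗[ℤ] L)))
    (c : Module.End ℂ (ℂ ⊗[ℤ] L) → ℂ) {m : ℕ}
    (hm : m = max (finrank ℂ V * (2 * finrank ℂ V - 1) ^ (finrank ℂ V - 1) / 2) (finrank ℂ V)) :
    ∃ θ : (Fin (2 * m) → ℂ ⊗[ℤ] L) [⋀^Fin (2 * m)]→ₗ[ℂ] ℂ, IsTate γ c (2 * m) m θ ∧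
      ∀ {C : ∀ n i : ℕ, Submodule ℚ ((Fin n → V) [⋀^Fin (2 * i)]→ₗ[ℝ] ℝ)}, IsStableFamily L C →
        (∀ i ≤ 1, ∀ η, IsHodgeClass (powLattice L 2) i η → η ∈ C 2 i) → IsPinkLie C γ c →
          θ ∈ extF ℂ C (2 * m) m → ∀ n i, TateHolds C γ c n i := by
  obtain ⟨θ, hθ, h⟩ := exists_oneTate hA γ c (2 * m) m
  refine ⟨θ, hθ, fun {C} hC h1 hγ hθC n i => ?_⟩
  have h2 := h hC.isHodge hθC
  refine tate_all hA hC h1 hγ (fun i hi => ?_) n i
  have him : i ≤ m := by
    rw [hm]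
    rcases hi with hi | hi
    · exact le_max_of_le_left (by omega)
    · exact le_max_of_le_right hi
  rcases Nat.eq_zero_or_pos (finrank ℂ V) with h0 | h0
  · have h3 : m = 0 := by
      rw [hm, h0]
      simp
    have h4 : i = 0 := by omega
    rw [h4]
    rw [h3] at h2
    exact tateHolds_zero hC h2
  · exact tateHolds_deg hA hC h1 hγ.tate h0 him h2

end Pool.Agent.Lib.MP_021685_agP
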