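import Pool.Agent.Lib.MP_021685_agP.PDg
import Pool.Agent.Lib.MP_021685_agP.PDh
import Pool.Agent.Lib.MP_802513_agS.GTD

/-!
# The traces of the Hodge-Tate idempotents, and the degenerate endomorphisms: definitions
-/

set_option autoImplicit false

open Pool.Agent.Lib.MP_802513_ag Pool.Agent.Lib.MP_802513_agS
open scoped TensorProduct

namespace Pool.Agent.Lib.MP_021685_agP

variable {V : Type*} [AddCommGroup V] [Module ℂ V]

/-- For every automorphism `τ` of `ℂ` there is an idempotent `h ∈ γ` with `c h = 1` such that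
`tr (h T, H) = τ (tr (T, V))` for all `T ∈ End A ⊗ ℚ`, `A = V / L`, `H = ℂ ⊗ L` (for `γ`, `c` as in
`IsTateLie`: the operator of Sen at a place above `ℓ`, and the Hodge-Tate decomposition of the Tate
module: its image is `τ`-conjugate to the tangent space of `A`). -/
def IsSen (L : AddSubgroup V) (γ : Submodule ℂ (Module.End ℂ (ℂ ⊗[ℤ] L)))
    (c : Module.End ℂ (ℂ ⊗[ℤ] L) → ℂ) : Prop :=
  ∀ τ : ℂ ≃+* ℂ, ∃ h ∈ γ, h * h = h ∧ c h = 1 ∧ ∀ T ∈ EndAlg L,
    ∀ T' : Module.End ℂ (ℂ ⊗[ℤ] L), EndExt T T' →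
      LinearMap.trace ℂ _ (h * T') = τ (LinearMap.trace ℂ V T)

/-- The form `θ` on `H ^ n` is killed (derivation, diagonally) by all the elements of `End A ⊗ ℚ`
which are central, skew for `B` and of trace `0` on the tangent space `V`. -/
def KilledByDeg (L : AddSubgroup V) (B : V →ₗ[ℝ] V →ₗ[ℝ] ℝ) {n s : ℕ}
    (θ : (Fin n → ℂ ⊗[ℤ] L) [⋀^Fin s]→ₗ[ℂ] ℂ) : Prop :=
  ∀ (T : Module.End ℂ V) (T' : Module.End ℂ (ℂ ⊗[ℤ] L)), IsDegenerate L B T → EndExt T T' →
    ∀ v : Fin s → Fin n → ℂ ⊗[ℤ] L, ∑ j, θ (Function.update v j (fun a => T' (v j a))) = 0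

end Pool.Agent.Lib.MP_021685_agP
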