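import Pool.Agent.Lib.MP_021685_agP.PE
import Pool.Agent.Lib.MP_021685_agP.PDf
import Pool.Agent.Lib.MP_021685_agS.TI

/-!
# Alternating forms and alternating tensors; the skew part of the Lie algebra
-/

set_option autoImplicit false
set_option linter.unusedSectionVars false

namespace Pool.Agent.Lib.MP_021685_agP

open Matrix Function Module MP_802513_ag MP_802513_agH MP_802513_agU MP_802513_agS MP_021685_agS
open scoped TensorProduct

section General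

variable {H : Type*} [AddCommGroup H] [Module ℂ H] {k : ℕ} (e : Basis (Fin k) ℂ H)

/-- The coordinates of an alternating form. -/
noncomputable def co (r : ℕ) : (H [⋀^Fin r]→ₗ[ℂ] ℂ) →ₗ[ℂ] ((Fin r → Fin k) → ℂ) where
  toFun θ j := θ (fun a => e (j a))
  map_add' := fun _ _ => rfl
  map_smul' := fun _ _ => rfl

theorem co_apply {r : ℕ} (θ : H [⋀^Fin r]→ₗ[ℂ] ℂ) (j : Fin r → Fin k) :
    co e r θ j = θ (fun a => e (j a)) := rfl

theorem co_alt {r : ℕ} (θ : H [⋀^Fin r]→ₗ[ℂ] ℂ) : IsAlt (co e r θ) := by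
  intro σ j
  rw [co_apply, co_apply]
  have h := θ.map_perm (fun a => e (j a)) σ
  rw [Units.smul_def] at h
  exact h

theorem co_inj {r : ℕ} {θ θ' : H [⋀^Fin r]→ₗ[ℂ] ℂ} (h : co e r θ = co e r θ') : θ = θ' := by
  have h1 : θ.toMultilinearMap = θ'.toMultilinearMap := by
    refine Basis.ext_multilinear (fun _ => e) fun j => ?_
    exact congrFun h j
  exact AlternatingMap.coe_multilinearMap_injective h1

theorem exists_co {r : ℕ} {T : (Fin r → Fin k) → ℂ} (hT : IsAlt T) :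
    ∃ θ : H [⋀^Fin r]→ₗ[ℂ] ℂ, co e r θ = T := by
  have h1 : IsAlt (fun j : Fin r → Fin 1 × Fin k => T (fun a => (j a).2)) := by
    intro σ j
    exact hT σ (fun a => (j a).2)
  obtain ⟨ω, hω⟩ := exists_HasC_form (e := e) (n := 1) h1
  refine ⟨ω.compLinearMap (LinearMap.single ℂ (fun _ : Fin 1 => H) 0), ?_⟩
  funext j
  rw [co_apply, AlternatingMap.compLinearMap_apply]
  exact (hω (fun a => (0, j a))).symm

theorem co_der_apply {r : ℕ} (θ : H [⋀^Fin r]→ₗ[ℂ] ℂ) (X : Module.End ℂ H) (j : Fin r → Fin k) :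
    ∑ s, θ (Function.update (fun a => e (j a)) s (X (e (j s)))) =
      DM (LinearMap.toMatrix e e X) (co e r θ) j := by
  unfold DM
  refine Finset.sum_congr rfl fun s _ => ?_
  have h1 : X (e (j s)) = ∑ m, LinearMap.toMatrix e e X m (j s) • e m := by
    conv_lhs => rw [← e.sum_repr (X (e (j s)))]
    refine Finset.sum_congr rfl fun m _ => ?_
    rw [LinearMap.toMatrix_apply]
  rw [h1]
  have h2 := θ.toMultilinearMap.map_update_sum (t := Finset.univ) s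
    (fun m => LinearMap.toMatrix e e X m (j s) • e m) (fun a => e (j a))
  refine h2.trans (Finset.sum_congr rfl fun m _ => ?_)
  rw [MultilinearMap.map_update_smul, smul_eq_mul, mul_comm]
  congr 1
  rw [co_apply]
  show θ (update (fun a => e (j a)) s (e m)) = θ fun a => e (update j s m a)
  congr 1
  funext a
  by_cases ha : a = s
  · subst ha
    rw [update_self, update_self]
  · rw [update_of_ne ha, update_of_ne ha]

/-- The derivation in coordinates. -/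
theorem co_der {r : ℕ} {θ θ' : H [⋀^Fin r]→ₗ[ℂ] ℂ} (X : Module.End ℂ H)
    (h : ∀ v, θ' v = ∑ s, θ (Function.update v s (X (v s)))) :
    co e r θ' = DM (LinearMap.toMatrix e e X) (co e r θ) := by
  funext j
  rw [co_apply, h]
  exact co_der_apply e θ X j

theorem der_of_co {r : ℕ} {θ θ' : H [⋀^Fin r]→ₗ[ℂ] ℂ} (X : Module.End ℂ H)
    (h : co e r θ' = DM (LinearMap.toMatrix e e X) (co e r θ)) (v : Fin r → H) :
    θ' v = ∑ s, θ (Function.update v s (X (v s))) := by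
  classical
  let G : MultilinearMap ℂ (fun _ : Fin r => H) ℂ :=
    ∑ a, θ.toMultilinearMap.compLinearMap (update (fun _ => LinearMap.id) a X)
  have hG : ∀ v : Fin r → H, G v = ∑ s, θ (Function.update v s (X (v s))) := by
    intro v
    show (∑ a, θ.toMultilinearMap.compLinearMap (update (fun _ => LinearMap.id) a X)) v = _
    rw [_root_.sum_apply]
    refine Finset.sum_congr rfl fun a _ => ?_
    rw [MultilinearMap.compLinearMap_apply]
    show θ _ = θ _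
    congr 1
    funext a'
    by_cases ha : a' = a
    · subst ha
      rw [update_self, update_self]
    · rw [update_of_ne ha, update_of_ne ha, LinearMap.id_apply]
  have h1 : θ'.toMultilinearMap = G := by
    refine Basis.ext_multilinear (fun _ => e) fun j => ?_
    rw [hG]
    have h2 := co_der_apply e θ X j
    rw [← h] at h2
    exact h2.symm
  have h2 := congrArg (fun M : MultilinearMap ℂ (fun _ : Fin r => H) ℂ => M v) h1
  beta_reduce at h2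
  rw [hG] at h2
  exact h2

end General

variable {V : Type*} [AddCommGroup V] [Module ℂ V]
  {L : AddSubgroup V} {g : ℕ} {b : Basis (Fin (2 * g)) ℝ V}
  {e : Basis (Fin (2 * g)) ℂ (ℂ ⊗[ℤ] L)}
  {C : ∀ n i : ℕ, Submodule ℚ ((Fin n → V) [⋀^Fin (2 * i)]→ₗ[ℝ] ℝ)}
  {D : PData (Fin (2 * g))} {Q : QSys D}
  {γ : Submodule ℂ (Module.End ℂ (ℂ ⊗[ℤ] L))} {c : Module.End ℂ (ℂ ⊗[ℤ] L) → ℂ}

/-- The skew part of an element of `γ`. -/
theorem skew_mem (hb : ∀ w, w ∈ L ↔ ∀ l, ∃ n : ℤ, b.repr w l = n)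
    (he : ∀ (l : Fin (2 * g)) (h : b l ∈ L), e l = 1 ⊗ₜ[ℤ] (⟨b l, h⟩ : L)) (hJ : D.J = rc (Jr b))
    (h1 : ∀ i ≤ 1, ∀ η : (Fin 2 → V) [⋀^Fin (2 * i)]→ₗ[ℝ] ℝ,
      IsHodgeClass (powLattice L 2) i η → η ∈ C 2 i)
    (hT : ∀ (n i : ℕ) (θ : (Fin n → ℂ ⊗[ℤ] L) [⋀^Fin (2 * i)]→ₗ[ℂ] ℂ), θ ∈ extF ℂ C n i →
      IsTate γ c n i θ) {X : Module.End ℂ (ℂ ⊗[ℤ] L)} (hX : X ∈ γ) :
    LinearMap.toMatrix e e X - (c X / 2) • (1 : Matrix _ _ ℂ) ∈ skewPart e D γ := by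
  have h2 := multiplier hb he hJ h1 hT hX
  refine ⟨?_, c X / 2, ?_⟩
  · rw [Matrix.transpose_sub, Matrix.transpose_smul, Matrix.transpose_one, Matrix.sub_mul,
      Matrix.mul_sub, Matrix.smul_mul, Matrix.mul_smul, Matrix.one_mul, Matrix.mul_one]
    have h3 : c X • D.G.map (fun q : ℚ => (q : ℂ)) =
        (c X / 2) • D.G.map (fun q : ℚ => (q : ℂ)) +
          (c X / 2) • D.G.map (fun q : ℚ => (q : ℂ)) := by
      rw [← add_smul, add_halves]
    rw [h3] at h2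
    calc (LinearMap.toMatrix e e X)ᵀ * D.G.map (fun q : ℚ => (q : ℂ)) -
          (c X / 2) • D.G.map (fun q : ℚ => (q : ℂ)) +
          (D.G.map (fun q : ℚ => (q : ℂ)) * LinearMap.toMatrix e e X -
            (c X / 2) • D.G.map (fun q : ℚ => (q : ℂ)))
        = ((LinearMap.toMatrix e e X)ᵀ * D.G.map (fun q : ℚ => (q : ℂ)) +
          D.G.map (fun q : ℚ => (q : ℂ)) * LinearMap.toMatrix e e X) -
          ((c X / 2) • D.G.map (fun q : ℚ => (q : ℂ)) +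
            (c X / 2) • D.G.map (fun q : ℚ => (q : ℂ))) := by abel
      _ = 0 := by rw [h2, sub_self]
  · have h3 : Matrix.toLin e e (LinearMap.toMatrix e e X - (c X / 2) • (1 : Matrix _ _ ℂ)) +
        (c X / 2) • (1 : Module.End ℂ (ℂ ⊗[ℤ] L)) = X := by
      rw [map_sub, Matrix.toLin_toMatrix, map_smul, Matrix.toLin_one, Module.End.one_eq_id,
        sub_add_cancel]
    rw [h3]
    exact hX

/-- The skew part is closed under brackets. -/
theorem skew_br (hbr : ∀ X ∈ γ, ∀ Y ∈ γ, X * Y - Y * X ∈ γ)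
    {X Y : Matrix (Fin (2 * g)) (Fin (2 * g)) ℂ} (hX : X ∈ skewPart e D γ)
    (hY : Y ∈ skewPart e D γ) : X * Y - Y * X ∈ skewPart e D γ := by
  obtain ⟨hX1, a, ha⟩ := hX
  obtain ⟨hY1, a', ha'⟩ := hY
  obtain ⟨G, hG⟩ : ∃ G, G = D.G.map (fun q : ℚ => (q : ℂ)) := ⟨_, rfl⟩
  rw [← hG] at hX1 hY1
  refine ⟨?_, 0, ?_⟩
  · rw [← hG]
    have h1 : Xᵀ * G = -(G * X) := eq_neg_of_add_eq_zero_left hX1
    have h2 : Yᵀ * G = -(G * Y) := eq_neg_of_add_eq_zero_left hY1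
    have h3 : (X * Y - Y * X)ᵀ * G = -(G * (X * Y - Y * X)) := by
      rw [Matrix.transpose_sub, Matrix.transpose_mul, Matrix.transpose_mul, Matrix.sub_mul,
        Matrix.mul_assoc, Matrix.mul_assoc, h1, h2, Matrix.mul_neg, Matrix.mul_neg,
        ← Matrix.mul_assoc, ← Matrix.mul_assoc, h1, h2, Matrix.mul_sub]
      simp only [Matrix.neg_mul, Matrix.mul_assoc]
      abel
    rw [h3, neg_add_cancel]
  · rw [zero_smul, add_zero]
    have h1 := hbr _ ha _ ha'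
    have h2 : (Matrix.toLin e e X + a • (1 : Module.End ℂ (ℂ ⊗[ℤ] L))) *
        (Matrix.toLin e e Y + a' • (1 : Module.End ℂ (ℂ ⊗[ℤ] L))) -
        (Matrix.toLin e e Y + a' • (1 : Module.End ℂ (ℂ ⊗[ℤ] L))) *
        (Matrix.toLin e e X + a • (1 : Module.End ℂ (ℂ ⊗[ℤ] L))) =
        Matrix.toLin e e (X * Y - Y * X) := by
      rw [map_sub, Matrix.toLin_mul e e e, Matrix.toLin_mul e e e]
      simp only [add_mul, mul_add, smul_mul_assoc, mul_smul_comm, one_mul, mul_one, smul_add,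
        smul_smul, mul_comm a' a]
      show _ = Matrix.toLin e e X * Matrix.toLin e e Y - Matrix.toLin e e Y * Matrix.toLin e e X
      abel
    rw [h2] at h1
    exact h1

/-- The matrices which commute with the elements of the skew part with square one. -/
theorem skew_ht (hb : ∀ w, w ∈ L ↔ ∀ l, ∃ n : ℤ, b.repr w l = n)
    (he : ∀ (l : Fin (2 * g)) (h : b l ∈ L), e l = 1 ⊗ₜ[ℤ] (⟨b l, h⟩ : L)) (hJ : D.J = rc (Jr b))
    (h1 : ∀ i ≤ 1, ∀ η : (Fin 2 → V) [⋀^Fin (2 * i)]→ₗ[ℝ] ℝ,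
      IsHodgeClass (powLattice L 2) i η → η ∈ C 2 i)
    (hT : ∀ (n i : ℕ) (θ : (Fin n → ℂ ⊗[ℤ] L) [⋀^Fin (2 * i)]→ₗ[ℂ] ℂ), θ ∈ extF ℂ C n i →
      IsTate γ c n i θ)
    (hHT : ∀ Y : Module.End ℂ (ℂ ⊗[ℤ] L), (∀ h ∈ γ, h * h = h → c h = 1 → h * Y = Y * h) →
      ∀ X ∈ γ, X * Y = Y * X)
    {Y : Matrix (Fin (2 * g)) (Fin (2 * g)) ℂ}
    (hY : ∀ X ∈ skewPart e D γ, X * X = 1 → X * Y = Y * X)
    {X : Matrix (Fin (2 * g)) (Fin (2 * g)) ℂ} (hX : X ∈ skewPart e D γ) : X * Y = Y * X := by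
  have h2 : ∀ h ∈ γ, h * h = h → c h = 1 → h * Matrix.toLin e e Y = Matrix.toLin e e Y * h := by
    intro h hh hid hc
    have h3 := skew_mem hb he hJ h1 hT hh
    have h4 := (skewPart e D γ).smul_mem (2 : ℂ) h3
    rw [hc] at h4
    obtain ⟨m, hm⟩ : ∃ m, m = LinearMap.toMatrix e e h := ⟨_, rfl⟩
    rw [← hm] at h4
    have hmm : m * m = m := by
      rw [hm, ← LinearMap.toMatrix_mul, hid]
    have h5 : (2 : ℂ) • (m - ((1 : ℂ) / 2) • (1 : Matrix _ _ ℂ)) *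
        (2 : ℂ) • (m - ((1 : ℂ) / 2) • (1 : Matrix _ _ ℂ)) = 1 := by
      have h6 : (2 : ℂ) • (m - ((1 : ℂ) / 2) • (1 : Matrix _ _ ℂ)) = (2 : ℂ) • m - 1 := by
        rw [smul_sub, smul_smul]
        norm_num
      rw [h6, sub_mul, mul_sub, smul_mul_smul_comm, hmm, mul_one, one_mul]
      module
    have h6 := hY _ h4 h5
    have h7 : m * Y = Y * m := by
      have h8 : (2 : ℂ) • (m - ((1 : ℂ) / 2) • (1 : Matrix _ _ ℂ)) = (2 : ℂ) • m - 1 := by
        rw [smul_sub, smul_smul]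
        norm_num
      rw [h8, sub_mul, mul_sub, one_mul, mul_one, sub_left_inj, smul_mul_assoc,
        mul_smul_comm] at h6
      exact smul_right_injective _ two_ne_zero h6
    have h8 := congrArg (Matrix.toLin e e) h7
    rw [Matrix.toLin_mul e e e, Matrix.toLin_mul e e e, hm, Matrix.toLin_toMatrix] at h8
    exact h8
  obtain ⟨-, a, ha⟩ := hX
  have h3 := hHT _ h2 _ ha
  rw [add_mul, mul_add, smul_mul_assoc, mul_smul_comm, one_mul, mul_one, add_left_inj] at h3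
  have h4 : Matrix.toLin e e (X * Y) = Matrix.toLin e e (Y * X) := by
    rw [Matrix.toLin_mul e e e, Matrix.toLin_mul e e e]
    exact h3
  exact (Matrix.toLin e e).injective h4

/-- Complements. -/
theorem skew_ss (hb : ∀ w, w ∈ L ↔ ∀ l, ∃ n : ℤ, b.repr w l = n)
    (he : ∀ (l : Fin (2 * g)) (h : b l ∈ L), e l = 1 ⊗ₜ[ℤ] (⟨b l, h⟩ : L)) (hJ : D.J = rc (Jr b))
    (h1 : ∀ i ≤ 1, ∀ η : (Fin 2 → V) [⋀^Fin (2 * i)]→ₗ[ℝ] ℝ,
      IsHodgeClass (powLattice L 2) i η → η ∈ C 2 i)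
    (hT : ∀ (n i : ℕ) (θ : (Fin n → ℂ ⊗[ℤ] L) [⋀^Fin (2 * i)]→ₗ[ℂ] ℂ), θ ∈ extF ℂ C n i →
      IsTate γ c n i θ)
    {r : ℕ} (hss : ∀ W : Submodule ℂ ((ℂ ⊗[ℤ] L) [⋀^Fin r]→ₗ[ℂ] ℂ), IsStableSpace γ W →
      ∃ W', IsStableSpace γ W' ∧ IsCompl W W')
    {W : Submodule ℂ ((Fin r → Fin (2 * g)) → ℂ)} (hWa : ∀ t ∈ W, IsAlt t)
    (hW : ∀ X ∈ skewPart e D γ, ∀ t ∈ W, DM X t ∈ W) :
    ∃ W' : Submodule ℂ ((Fin r → Fin (2 * g)) → ℂ),
      (∀ t ∈ W', IsAlt t) ∧ (∀ X ∈ skewPart e D γ, ∀ t ∈ W', DM X t ∈ W') ∧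
      (∀ t ∈ W, t ∈ W' → t = 0) ∧ ∀ t, IsAlt t → ∃ w ∈ W, ∃ w' ∈ W', t = w + w' := by
  obtain ⟨U, hU⟩ : ∃ U : Submodule ℂ ((ℂ ⊗[ℤ] L) [⋀^Fin r]→ₗ[ℂ] ℂ), U = W.comap (co e r) :=
    ⟨_, rfl⟩
  have hUs : IsStableSpace γ U := by
    intro X hX θ hθ
    rw [hU, Submodule.mem_comap] at hθ
    have h2 : DM (LinearMap.toMatrix e e X) (co e r θ) ∈ W := by
      have h3 : LinearMap.toMatrix e e X = (LinearMap.toMatrix e e X -
          (c X / 2) • (1 : Matrix _ _ ℂ)) + (c X / 2) • (1 : Matrix _ _ ℂ) := by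
        rw [sub_add_cancel]
      rw [h3, DM_scalar]
      exact W.add_mem (hW _ (skew_mem hb he hJ h1 hT hX) _ hθ) (W.smul_mem _ hθ)
    obtain ⟨θ', hθ'⟩ := exists_co e (hWa _ h2)
    refine ⟨θ', ?_, ?_⟩
    · rw [hU, Submodule.mem_comap, hθ']
      exact h2
    · exact der_of_co e X hθ'
  obtain ⟨U', hU's, hUU'⟩ := hss U hUs
  refine ⟨U'.map (co e r), ?_, ?_, ?_, ?_⟩
  · rintro _ ⟨θ, -, rfl⟩
    exact co_alt e θ
  · rintro X ⟨hX, a, ha⟩ _ ⟨θ, hθ, rfl⟩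
    obtain ⟨θ', hθ', h2⟩ := hU's _ ha θ hθ
    have h3 := co_der e _ h2
    have h4 : LinearMap.toMatrix e e (Matrix.toLin e e X + a • (1 : Module.End ℂ (ℂ ⊗[ℤ] L))) =
        X + a • (1 : Matrix _ _ ℂ) := by
      rw [map_add, LinearMap.toMatrix_toLin, map_smul, Module.End.one_eq_id,
        LinearMap.toMatrix_id]
    rw [h4, DM_scalar] at h3
    have h5 : DM X (co e r θ) = co e r θ' - ((r : ℂ) * a) • co e r θ := by
      rw [h3, add_sub_cancel_right]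
    rw [h5]
    exact Submodule.sub_mem _ ⟨θ', hθ', rfl⟩ (Submodule.smul_mem _ _ ⟨θ, hθ, rfl⟩)
  · rintro _ ht ⟨θ, hθ, rfl⟩
    have h2 : θ ∈ U := by
      rw [hU, Submodule.mem_comap]
      exact ht
    have h3 : θ ∈ U ⊓ U' := ⟨h2, hθ⟩
    rw [hUU'.inf_eq_bot, Submodule.mem_bot] at h3
    rw [h3, map_zero]
  · intro t ht
    obtain ⟨θ, rfl⟩ := exists_co e ht
    have h2 : θ ∈ U ⊔ U' := by
      rw [hUU'.sup_eq_top]
      exact Submodule.mem_top
    obtain ⟨w, hw, w', hw', h3⟩ := Submodule.mem_sup.1 h2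
    refine ⟨co e r w, ?_, co e r w', ⟨w', hw', rfl⟩, ?_⟩
    · rw [hU, Submodule.mem_comap] at hw
      exact hw
    · rw [← map_add, h3]

end Pool.Agent.Lib.MP_021685_agP
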