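import Pool.Agent.Lib.MP_021685_agP.PMb
import Pool.Agent.Lib.MP_021685_agP.PL
import Pool.Agent.Lib.MP_021685_agP.PDh
import Pool.Agent.Lib.MP_802513_agS.GN

/-!
# The traces of the derivatives of the Hodge-Tate cocharacters, in coordinates
-/

set_option autoImplicit false
set_option linter.unusedSectionVars false

namespace Pool.Agent.Lib.MP_021685_agP

open Matrix Function Module MP_802513_ag MP_802513_agH MP_802513_agU MP_802513_agS MP_021685_agS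
open scoped TensorProduct

variable {V : Type*} [AddCommGroup V] [Module ℂ V]
  {L : AddSubgroup V} {g : ℕ} {b : Basis (Fin (2 * g)) ℝ V}
  {e : Basis (Fin (2 * g)) ℂ (ℂ ⊗[ℤ] L)}
  {C : ∀ n i : ℕ, Submodule ℚ ((Fin n → V) [⋀^Fin (2 * i)]→ₗ[ℝ] ℝ)}
  {D : PData (Fin (2 * g))} {Q : QSys D}
  {γ : Submodule ℂ (Module.End ℂ (ℂ ⊗[ℤ] L))} {c : Module.End ℂ (ℂ ⊗[ℤ] L) → ℂ}

/-- The coordinates of an element of the lattice. -/
theorem tmul_eq (hb : ∀ w, w ∈ L ↔ ∀ l, ∃ n : ℤ, b.repr w l = n)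
    (he : ∀ (l : Fin (2 * g)) (h : b l ∈ L), e l = 1 ⊗ₜ[ℤ] (⟨b l, h⟩ : L)) (w : L) :
    (1 : ℂ) ⊗ₜ[ℤ] w = ∑ l, ((b.repr (w : V) l : ℝ) : ℂ) • e l := by
  have hbl : ∀ l, b l ∈ L := by
    intro l
    rw [hb]
    intro m
    by_cases h : l = m
    · refine ⟨1, ?_⟩
      rw [h, b.repr_self, Finsupp.single_eq_same, Int.cast_one]
    · refine ⟨0, ?_⟩
      rw [b.repr_self, Finsupp.single_eq_of_ne (fun h' => h h'.symm), Int.cast_zero]
  choose n hn using (hb (w : V)).1 w.2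
  have hw : w = ∑ l, n l • (⟨b l, hbl l⟩ : L) := by
    refine Subtype.ext ?_
    rw [AddSubgroup.val_finset_sum]
    conv_lhs => rw [← b.sum_repr (w : V)]
    refine Finset.sum_congr rfl fun l _ => ?_
    rw [hn l, AddSubgroup.coe_zsmul]
    exact Int.cast_smul_eq_zsmul ℝ (n l) (b l)
  have h2 : (1 : ℂ) ⊗ₜ[ℤ] w = ∑ l, n l • ((1 : ℂ) ⊗ₜ[ℤ] (⟨b l, hbl l⟩ : L)) := by
    conv_lhs => rw [hw]
    rw [TensorProduct.tmul_sum]
    refine Finset.sum_congr rfl fun l _ => ?_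
    rw [TensorProduct.tmul_smul]
  rw [h2]
  refine Finset.sum_congr rfl fun l _ => ?_
  rw [hn l, ← he l (hbl l), Complex.ofReal_intCast, Int.cast_smul_eq_zsmul]

/-- The extension of an endomorphism, in coordinates. -/
theorem endExt_toLin (hb : ∀ w, w ∈ L ↔ ∀ l, ∃ n : ℤ, b.repr w l = n)
    (he : ∀ (l : Fin (2 * g)) (h : b l ∈ L), e l = 1 ⊗ₜ[ℤ] (⟨b l, h⟩ : L))
    {N : Matrix (Fin (2 * g)) (Fin (2 * g)) ℚ} {S : Module.End ℂ V}
    (hS : LinearMap.toMatrix b b (S.restrictScalars ℝ) = qr N) :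
    EndExt S (Matrix.toLin e e (cq N)) := by
  intro m x y hxy
  rw [tmul_eq hb he x, tmul_eq hb he y, map_sum, ← hxy]
  have h1 : ∀ j, b.repr (S (x : V)) j = ∑ l, (N j l : ℝ) * b.repr (x : V) l := by
    intro j
    have h2 := congrFun (LinearMap.toMatrix_mulVec_repr b b (S.restrictScalars ℝ) (x : V)) j
    rw [hS] at h2
    refine h2.symm.trans ?_
    rfl
  have h3 : ∀ l, (Matrix.toLin e e (cq N)) (((b.repr (x : V) l : ℝ) : ℂ) • e l) =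
      ∑ j, (((N j l : ℝ) * b.repr (x : V) l : ℝ) : ℂ) • e j := by
    intro l
    rw [map_smul, Matrix.toLin_self, Finset.smul_sum]
    refine Finset.sum_congr rfl fun j _ => ?_
    rw [smul_smul, cq_apply]
    congr 1
    push_cast
    ring
  simp only [h3]
  rw [Finset.sum_comm, Finset.smul_sum]
  refine Finset.sum_congr rfl fun j _ => ?_
  rw [← Finset.sum_smul]
  have h4 : b.repr (m • S (x : V)) j = (m : ℝ) * b.repr (S (x : V)) j := by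
    rw [map_nsmul, Finsupp.smul_apply, nsmul_eq_mul]
  rw [h4, h1, ← Nat.cast_smul_eq_nsmul ℂ, smul_smul]
  congr 1
  push_cast
  rfl

/-- The trace on the tangent space of a skew endomorphism. -/
theorem trace_tangent {D : PData (Fin (2 * g))} (hJ : D.J = rc (Jr b))
    {N : Matrix (Fin (2 * g)) (Fin (2 * g)) ℚ} {S : Module.End ℂ V}
    (hSm : LinearMap.toMatrix b b (S.restrictScalars ℝ) = qr N)
    (hs : Nᵀ * D.G = -(D.G * N)) :
    N.trace = 0 ∧ 2 * LinearMap.trace ℂ V S = -Complex.I * (D.J * cq N).trace := by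
  have h2 : N.trace = 0 := by
    have h3 : (Nᵀ * D.G * D.G⁻¹).trace = -(D.G * N * D.G⁻¹).trace := by
      rw [hs, Matrix.neg_mul, Matrix.trace_neg]
    rw [Matrix.mul_assoc, Matrix.mul_nonsing_inv _ isUnit_G, Matrix.mul_one,
      Matrix.trace_transpose, Matrix.trace_mul_comm, ← Matrix.mul_assoc,
      Matrix.nonsing_inv_mul _ isUnit_G, Matrix.one_mul] at h3
    linarith
  refine ⟨h2, ?_⟩
  have : Module.Finite ℝ V := Module.Finite.of_basis b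
  have : Module.Finite ℂ V := Module.Finite.of_restrictScalars_finite ℝ ℂ V
  have hr : LinearMap.trace ℝ V (S.restrictScalars ℝ) = 0 := by
    rw [LinearMap.trace_eq_matrix_trace ℝ b, hSm]
    have h1 : (qr N).trace = ((N.trace : ℚ) : ℝ) := by
      rw [Matrix.trace, Matrix.trace, Rat.cast_sum]
      rfl
    rw [h1, h2, Rat.cast_zero]
  have hi : LinearMap.trace ℝ V ((Complex.I • S).restrictScalars ℝ) = (Jr b * qr N).trace := by
    have h0 : ((Complex.I • S).restrictScalars ℝ : V →ₗ[ℝ] V) =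
        (Iv V) ∘ₗ (S.restrictScalars ℝ) := rfl
    rw [LinearMap.trace_eq_matrix_trace ℝ b, h0, LinearMap.toMatrix_comp b b b, hSm]
    rfl
  have h1 : (D.J * cq N).trace = (((Jr b * qr N).trace : ℝ) : ℂ) := by
    rw [hJ, ← rc_qr, ← map_mul, Matrix.trace, Matrix.trace, Complex.ofReal_sum]
    rfl
  rw [trace_real] at hr hi
  rw [h1, ← hi]
  have h4 : (LinearMap.trace ℂ V S).re = 0 := by linarith
  have h5 : (LinearMap.trace ℂ V (Complex.I • S)).re = -(LinearMap.trace ℂ V S).im := by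
    rw [map_smul, smul_eq_mul, Complex.mul_re, Complex.I_re, Complex.I_im]
    ring
  rw [h5]
  refine Complex.ext ?_ ?_
  · simp [h4]
  · simp

/-- The traces, in coordinates. -/
theorem skew_sen (hb : ∀ w, w ∈ L ↔ ∀ l, ∃ n : ℤ, b.repr w l = n)
    (he : ∀ (l : Fin (2 * g)) (h : b l ∈ L), e l = 1 ⊗ₜ[ℤ] (⟨b l, h⟩ : L)) (hJ : D.J = rc (Jr b))
    (h1 : ∀ i ≤ 1, ∀ η : (Fin 2 → V) [⋀^Fin (2 * i)]→ₗ[ℝ] ℝ,
      IsHodgeClass (powLattice L 2) i η → η ∈ C 2 i)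
    (hT : ∀ (n i : ℕ) (θ : (Fin n → ℂ ⊗[ℤ] L) [⋀^Fin (2 * i)]→ₗ[ℂ] ℂ), θ ∈ extF ℂ C n i →
      IsTate γ c n i θ)
    (hsen : ∀ τ : ℂ ≃+* ℂ, ∃ h ∈ γ, h * h = h ∧ c h = 1 ∧ ∀ T ∈ EndAlg L,
      ∀ T' : Module.End ℂ (ℂ ⊗[ℤ] L), EndExt T T' →
        LinearMap.trace ℂ _ (h * T') = τ (LinearMap.trace ℂ V T)) :
    ∃ c₀ : ℂ, c₀ ≠ 0 ∧ ∀ τ : ℂ ≃+* ℂ, ∃ X ∈ skewPart e D γ, X * X = 1 ∧ ∀ N ∈ RQ D,
      (∀ N' ∈ RQ D, N * N' = N' * N) → Nᵀ * D.G = -(D.G * N) →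
        (X * cq N).trace = τ (c₀ * (D.J * cq N).trace) := by
  refine ⟨-Complex.I, neg_ne_zero.2 Complex.I_ne_zero, fun τ => ?_⟩
  obtain ⟨h, hh, hid, hc, htr⟩ := hsen τ
  have h3 := skew_mem hb he hJ h1 hT hh
  have h4 := (skewPart e D γ).smul_mem (2 : ℂ) h3
  rw [hc] at h4
  obtain ⟨m, hm⟩ : ∃ m, m = LinearMap.toMatrix e e h := ⟨_, rfl⟩
  rw [← hm] at h4
  have hmm : m * m = m := by
    rw [hm, ← LinearMap.toMatrix_mul, hid]
  have h6 : (2 : ℂ) • (m - ((1 : ℂ) / 2) • (1 : Matrix _ _ ℂ)) = (2 : ℂ) • m - 1 := by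
    rw [smul_sub, smul_smul]
    norm_num
  rw [h6] at h4
  refine ⟨_, h4, ?_, fun N hN _ hs => ?_⟩
  · rw [sub_mul, mul_sub, smul_mul_smul_comm, hmm, mul_one, one_mul]
    module
  · obtain ⟨S, hS, hSm⟩ := exists_endo b hb hJ N (mem_RQ.1 hN)
    obtain ⟨h7, h8⟩ := trace_tangent hJ hSm hs
    have h9 := htr S hS _ (endExt_toLin hb he hSm)
    have h10 : LinearMap.trace ℂ _ (h * Matrix.toLin e e (cq N)) = (m * cq N).trace := by
      rw [LinearMap.trace_eq_matrix_trace ℂ e, LinearMap.toMatrix_mul, LinearMap.toMatrix_toLin, hm]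
    have h11 : (cq N).trace = 0 := by
      have h12 : (cq N).trace = ((N.trace : ℚ) : ℂ) := by
        rw [Matrix.trace, Matrix.trace, Rat.cast_sum]
        refine Finset.sum_congr rfl fun i _ => ?_
        rw [Matrix.diag_apply, Matrix.diag_apply, cq_apply]
      rw [h12, h7, Rat.cast_zero]
    rw [Matrix.sub_mul, Matrix.one_mul, Matrix.trace_sub, h11, sub_zero, Matrix.smul_mul,
      Matrix.trace_smul, ← h10, h9, ← h8, map_mul, map_ofNat, smul_eq_mul]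

/-- The hypotheses in coordinates, without hypothesis on the centre. -/
theorem tgal (hC : IsStableFamily L C) (hb : ∀ w, w ∈ L ↔ ∀ l, ∃ n : ℤ, b.repr w l = n)
    (he : ∀ (l : Fin (2 * g)) (h : b l ∈ L), e l = 1 ⊗ₜ[ℤ] (⟨b l, h⟩ : L)) (hJ : D.J = rc (Jr b))
    (hQ : Q.T = QT b C)
    (h1 : ∀ i ≤ 1, ∀ η : (Fin 2 → V) [⋀^Fin (2 * i)]→ₗ[ℝ] ℝ,
      IsHodgeClass (powLattice L 2) i η → η ∈ C 2 i)
    (hT : ∀ (n i : ℕ) (θ : (Fin n → ℂ ⊗[ℤ] L) [⋀^Fin (2 * i)]→ₗ[ℂ] ℂ), θ ∈ extF ℂ C n i →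
      IsTate γ c n i θ)
    (h2 : ∀ θ : (Fin 2 → ℂ ⊗[ℤ] L) [⋀^Fin (2 * g)]→ₗ[ℂ] ℂ, IsTate γ c 2 g θ → θ ∈ extF ℂ C 2 g)
    (hbr : ∀ X ∈ γ, ∀ Y ∈ γ, X * Y - Y * X ∈ γ)
    (hHT : ∀ Y : Module.End ℂ (ℂ ⊗[ℤ] L), (∀ h ∈ γ, h * h = h → c h = 1 → h * Y = Y * h) →
      ∀ X ∈ γ, X * Y = Y * X)
    (hss : ∀ W : Submodule ℂ ((ℂ ⊗[ℤ] L) [⋀^Fin g]→ₗ[ℂ] ℂ), IsStableSpace γ W →
      ∃ W', IsStableSpace γ W' ∧ IsCompl W W')
    (hsen : ∀ τ : ℂ ≃+* ℂ, ∃ h ∈ γ, h * h = h ∧ c h = 1 ∧ ∀ T ∈ EndAlg L,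
      ∀ T' : Module.End ℂ (ℂ ⊗[ℤ] L), EndExt T T' →
        LinearMap.trace ℂ _ (h * T') = τ (LinearMap.trace ℂ V T)) :
    TGal Q (skewPart e D γ) where
  br := fun X hX Y hY => skew_br hbr hX hY
  end_mem := fun N hN => end_mem hC hb hJ hQ h1 hN
  kills := fun X hX d t ht => skew_kills hb he hJ hQ h1 hT hX d t ht
  two := two_of_mid (fun X hX d t ht => skew_kills hb he hJ hQ h1 hT hX d t ht)
    (fun p q hpq t ht hk => skew_mid hC hb he hJ hQ h1 hT h2 hpq ht hk)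
  ht := fun Y hY X hX => skew_ht hb he hJ h1 hT hHT hY hX
  ss := fun r hr W hWa hW => by
    have h3 : g = r := by omega
    subst h3
    exact skew_ss hb he hJ h1 hT hss hWa hW
  sen := skew_sen hb he hJ h1 hT hsen

end Pool.Agent.Lib.MP_021685_agP
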