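import Pool.Agent.Lib.MP_021685_agP.PMb
import Pool.Agent.Lib.MP_021685_agS.DI

/-!
# One class of degree two on `A ^ 4` is enough, in the coordinates of the lattice
-/

set_option autoImplicit false
set_option linter.unusedSectionVars false

namespace Pool.Agent.Lib.MP_021685_agP

open Matrix Function Module MP_802513_ag MP_802513_agH MP_802513_agU MP_802513_agS MP_021685_agS

variable {k : ℕ} {D : PData (Fin k)}

/-- The hypotheses on the Lie algebra `g`, and on a projection `P` to `g` which commutes with the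
brackets with the elements of `g`: only the tensor of `P` has to be in the span of the system. -/
structure TGal1 (Q : QSys D) (g : Submodule ℂ (Matrix (Fin k) (Fin k) ℂ))
    (P : Matrix (Fin k) (Fin k) ℂ →ₗ[ℂ] Matrix (Fin k) (Fin k) ℂ) : Prop where
  br : ∀ X ∈ g, ∀ Y ∈ g, X * Y - Y * X ∈ g
  end_mem : ∀ N ∈ RQ D, (fun j : Fin 2 → Fin k => (D.G * N) (j 0) (j 1)) ∈ Q.T 2
  kills : ∀ X ∈ g, ∀ (d : ℕ) (t : (Fin d → Fin k) → ℚ), t ∈ Q.T d → DM X (fun j => (t j : ℂ)) = 0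
  comm : ∀ Y : Matrix (Fin k) (Fin k) ℂ, (∀ X ∈ g, X * Y = Y * X) → Y ∈ RC D
  P_mem : ∀ A, P A ∈ g
  P_id : ∀ A ∈ g, P A = A
  P_br : ∀ X ∈ g, ∀ A, P (X * A - A * X) = X * P A - P A * X
  four : DI_t4 D.Gc P ∈ spC Q 4
  ss : ∀ W : Submodule ℂ (Matrix (Fin k) (Fin k) ℂ), (∀ X ∈ g, ∀ A ∈ W, X * A - A * X ∈ W) →
    ∃ W' : Submodule ℂ (Matrix (Fin k) (Fin k) ℂ), (∀ X ∈ g, ∀ A ∈ W', X * A - A * X ∈ W') ∧
      IsCompl W W'
  sen : ∃ c₀ : ℂ, c₀ ≠ 0 ∧ ∀ τ : ℂ ≃+* ℂ, ∃ X ∈ g, X * X = 1 ∧ ∀ N ∈ RQ D,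
    (∀ N' ∈ RQ D, N * N' = N' * N) → Nᵀ * D.G = -(D.G * N) →
      (X * cq N).trace = τ (c₀ * (D.J * cq N).trace)

/-- The hypotheses on the Lie algebra `g`: the invariants of degree four are in the span of the
system. -/
structure TGal4 (Q : QSys D) (g : Submodule ℂ (Matrix (Fin k) (Fin k) ℂ)) : Prop where
  br : ∀ X ∈ g, ∀ Y ∈ g, X * Y - Y * X ∈ g
  end_mem : ∀ N ∈ RQ D, (fun j : Fin 2 → Fin k => (D.G * N) (j 0) (j 1)) ∈ Q.T 2
  kills : ∀ X ∈ g, ∀ (d : ℕ) (t : (Fin d → Fin k) → ℚ), t ∈ Q.T d → DM X (fun j => (t j : ℂ)) = 0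
  comm : ∀ Y : Matrix (Fin k) (Fin k) ℂ, (∀ X ∈ g, X * Y = Y * X) → Y ∈ RC D
  four : ∀ t : (Fin 4 → Fin k) → ℂ, (∀ X ∈ g, DM X t = 0) → t ∈ spC Q 4
  ss : ∀ W : Submodule ℂ (Matrix (Fin k) (Fin k) ℂ), (∀ X ∈ g, ∀ A ∈ W, X * A - A * X ∈ W) →
    ∃ W' : Submodule ℂ (Matrix (Fin k) (Fin k) ℂ), (∀ X ∈ g, ∀ A ∈ W', X * A - A * X ∈ W') ∧
      IsCompl W W'
  sen : ∃ c₀ : ℂ, c₀ ≠ 0 ∧ ∀ τ : ℂ ≃+* ℂ, ∃ X ∈ g, X * X = 1 ∧ ∀ N ∈ RQ D,
    (∀ N' ∈ RQ D, N * N' = N' * N) → Nᵀ * D.G = -(D.G * N) →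
      (X * cq N).trace = τ (c₀ * (D.J * cq N).trace)

/-- A matrix which kills the system is skew. -/
theorem PN_skew {Q : QSys D} {X : Matrix (Fin k) (Fin k) ℂ}
    (h : ∀ (d : ℕ) (t : (Fin d → Fin k) → ℚ), t ∈ Q.T d → DM X (fun j => (t j : ℂ)) = 0) :
    Xᵀ * D.Gc + D.Gc * X = 0 := by
  refine DI_skew ?_
  have h1 := h 2 _ Q.form
  have h2 : (fun j : Fin 2 → Fin k => D.Gc (j 0) (j 1)) =
      fun j => ((D.G (j 0) (j 1) : ℚ) : ℂ) := by
    funext j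
    exact cq_apply _ _ _
  rw [h2]
  exact h1

/-- A matrix which kills the system commutes with the endomorphisms. -/
theorem PN_comm {Q : QSys D}
    (hend : ∀ N ∈ RQ D, (fun j : Fin 2 → Fin k => (D.G * N) (j 0) (j 1)) ∈ Q.T 2)
    {X : Matrix (Fin k) (Fin k) ℂ}
    (h : ∀ (d : ℕ) (t : (Fin d → Fin k) → ℚ), t ∈ Q.T d → DM X (fun j => (t j : ℂ)) = 0)
    {N : Matrix (Fin k) (Fin k) ℚ} (hN : N ∈ RQ D) : X * cq N = cq N * X := by
  have h1 := h 2 _ (hend N hN)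
  have h2 : (fun j : Fin 2 → Fin k => (((D.G * N) (j 0) (j 1) : ℚ) : ℂ)) =
      DI_t2 D.Gc (cq N) := by
    funext j
    have h0 : D.Gc * cq N = cq (D.G * N) := by
      rw [map_mul]
      rfl
    unfold DI_t2
    rw [h0, cq_apply]
  rw [h2] at h1
  have h3 : D.Gc * (cq N * X - X * cq N) = 0 := by
    ext a b
    have h4 := DI_DM2 (PN_skew h) (Z := cq N) ![a, b]
    rw [h1] at h4
    simpa using h4.symm
  have h4 : D.Gc⁻¹ * (D.Gc * (cq N * X - X * cq N)) = 0 := by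
    rw [h3, Matrix.mul_zero]
  rw [← Matrix.mul_assoc, Matrix.nonsing_inv_mul _ isUnit_Gc, Matrix.one_mul] at h4
  exact (sub_eq_zero.1 h4).symm

theorem PN_comm_RC {X : Matrix (Fin k) (Fin k) ℂ}
    (h : ∀ N ∈ RQ D, X * cq N = cq N * X) {Y : Matrix (Fin k) (Fin k) ℂ} (hY : Y ∈ RC D) :
    X * Y = Y * X := by
  refine Submodule.span_induction (p := fun Y _ => X * Y = Y * X) ?_ ?_ ?_ ?_ (RC_span hY)
  · rintro _ ⟨N, hN, rfl⟩
    exact h N hN
  · rw [Matrix.mul_zero, Matrix.zero_mul]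
  · intro A B _ _ hA hB
    rw [Matrix.mul_add, Matrix.add_mul, hA, hB]
  · intro c A _ hA
    rw [Matrix.mul_smul, Matrix.smul_mul, hA]

theorem PN_span_kills {Q : QSys D} {X : Matrix (Fin k) (Fin k) ℂ}
    (h : ∀ (d : ℕ) (t : (Fin d → Fin k) → ℚ), t ∈ Q.T d → DM X (fun j => (t j : ℂ)) = 0) {d : ℕ}
    {t : (Fin d → Fin k) → ℂ} (ht : t ∈ spC Q d) : DM X t = 0 := by
  refine Submodule.span_induction (p := fun t _ => DM X t = 0) ?_ ?_ ?_ ?_ ht
  · rintro _ ⟨u, hu, rfl⟩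
    exact h d u hu
  · exact DM_zero_right _
  · intro a b _ _ ha hb
    rw [DM_add, ha, hb, add_zero]
  · intro c a _ ha
    rw [DM_smul, ha, smul_zero]

section Frame

variable {N : Type*} [Fintype N] [DecidableEq N]

/-- The adjoint in a frame. -/
theorem PN_star (Fr : FrM D N) {X : Matrix (N ⊕ N) (N ⊕ N) ℂ} (hsp : IsSp X) :
    Fr.F * Xᴴ * Fr.F' = D.J * (Fr.F * X * Fr.F').map (starRingEnd ℂ) * D.J := by
  have hF'b : Fr.F'.map (starRingEnd ℂ) = -(Qd N) * Fr.F' := by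
    have h1 : Fr.F'.map (starRingEnd ℂ) * Fr.F.map (starRingEnd ℂ) = 1 := by
      rw [← Matrix.map_mul, Fr.F'F]
      ext i j
      simp [Matrix.one_apply, apply_ite]
    have h2 : Fr.F.map (starRingEnd ℂ) * (-(Qd N) * Fr.F') = 1 := by
      rw [Fr.conj]
      calc Fr.F * Qd N * (-(Qd N) * Fr.F') = -(Fr.F * (Qd N * Qd N) * Fr.F') := by
            rw [Matrix.neg_mul, Matrix.mul_neg]
            simp only [Matrix.mul_assoc]
        _ = 1 := by
            rw [CA_Qd_Qd, Matrix.mul_neg, Matrix.mul_one, Matrix.neg_mul, neg_neg, Fr.FF']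
    calc Fr.F'.map (starRingEnd ℂ)
        = Fr.F'.map (starRingEnd ℂ) * (Fr.F.map (starRingEnd ℂ) * (-(Qd N) * Fr.F')) := by
          rw [h2, Matrix.mul_one]
      _ = -(Qd N) * Fr.F' := by rw [← Matrix.mul_assoc, h1, Matrix.one_mul]
  have hXb : (Fr.F * X * Fr.F').map (starRingEnd ℂ) =
      Fr.F * Qd N * X.map (starRingEnd ℂ) * (-(Qd N) * Fr.F') := by
    rw [Matrix.map_mul, Matrix.map_mul, Fr.conj, hF'b]
  have hXH : Xᴴ = Om N * X.map (starRingEnd ℂ) * Om N := by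
    have h1 : Xᵀ = Om N * X * Om N := by
      have h2 : Xᵀ * Om N = -(Om N * X) := eq_neg_of_add_eq_zero_left hsp
      calc Xᵀ = -(Xᵀ * Om N * Om N) := by
            rw [Matrix.mul_assoc, CA_Om_Om, Matrix.mul_neg, Matrix.mul_one, neg_neg]
        _ = Om N * X * Om N := by rw [h2, Matrix.neg_mul, neg_neg]
    have h3 : Xᴴ = (Xᵀ).map (starRingEnd ℂ) := rfl
    have h4 : (Om N).map (starRingEnd ℂ) = Om N := by
      ext i j
      rcases i with i | i <;> rcases j with j | j <;>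
        simp [Om, Matrix.one_apply, apply_ite]
    rw [h3, h1, Matrix.map_mul, Matrix.map_mul, h4]
  have hJ1 : D.J = Fr.F * Jd N * Fr.F' := by
    rw [← Fr.J_F, Matrix.mul_assoc, Fr.FF', Matrix.mul_one]
  rw [hXb, hXH, hJ1]
  have e1 : Jd N * Qd N = Om N := by
    rw [← CA_Om_Qd, Matrix.mul_assoc, Matrix.neg_mul, CA_Qd_Qd, neg_neg, Matrix.mul_one]
  have e2 : -(Qd N) * Jd N = Om N := by
    rw [← CA_Qd_Om, ← Matrix.mul_assoc, Matrix.neg_mul, CA_Qd_Qd, neg_neg, Matrix.one_mul]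
  symm
  calc (Fr.F * Jd N * Fr.F') * (Fr.F * Qd N * X.map (starRingEnd ℂ) * (-(Qd N) * Fr.F')) *
        (Fr.F * Jd N * Fr.F')
      = Fr.F * Jd N * (Fr.F' * Fr.F) * Qd N * X.map (starRingEnd ℂ) *
        (-(Qd N) * ((Fr.F' * Fr.F) * Jd N * Fr.F')) := by simp only [Matrix.mul_assoc]
    _ = Fr.F * (Jd N * Qd N) * X.map (starRingEnd ℂ) * (-(Qd N) * Jd N) * Fr.F' := by
        rw [Fr.F'F, Matrix.mul_one, Matrix.one_mul]
        simp only [Matrix.mul_assoc]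
    _ = Fr.F * (Om N * X.map (starRingEnd ℂ) * Om N) * Fr.F' := by
        rw [e1, e2]
        simp only [Matrix.mul_assoc]

theorem PN_isSp (Fr : FrM D N) {Z : Matrix (Fin k) (Fin k) ℂ} (hZ : Zᵀ * D.Gc + D.Gc * Z = 0) :
    IsSp (Fr.F' * Z * Fr.F) := by
  unfold IsSp
  have e1 : Fr.F * (Fr.F' * Z * Fr.F) = Z * Fr.F := by
    rw [← Matrix.mul_assoc, ← Matrix.mul_assoc, Fr.FF', Matrix.one_mul]
  have e2 : (Fr.F' * Z * Fr.F)ᵀ * Fr.Fᵀ = Fr.Fᵀ * Zᵀ := by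
    rw [← Matrix.transpose_mul, e1, Matrix.transpose_mul]
  have h3 : Fr.Fᵀ * (Zᵀ * D.Gc + D.Gc * Z) * Fr.F =
      (Fr.F' * Z * Fr.F)ᵀ * (Fr.Fᵀ * D.Gc * Fr.F) +
        (Fr.Fᵀ * D.Gc * Fr.F) * (Fr.F' * Z * Fr.F) := by
    have e3 : (Fr.F' * Z * Fr.F)ᵀ * (Fr.Fᵀ * D.Gc * Fr.F) = Fr.Fᵀ * Zᵀ * D.Gc * Fr.F := by
      rw [← e2]
      simp only [Matrix.mul_assoc]
    have e4 : (Fr.Fᵀ * D.Gc * Fr.F) * (Fr.F' * Z * Fr.F) = Fr.Fᵀ * D.Gc * (Z * Fr.F) := by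
      rw [← e1]
      simp only [Matrix.mul_assoc]
    rw [e3, e4, Matrix.mul_add, Matrix.add_mul]
    simp only [Matrix.mul_assoc]
  rw [hZ, Matrix.mul_zero, Matrix.zero_mul, Fr.symp] at h3
  exact h3.symm

end Frame

/-- The trace form on the central skew matrices: if `Z` is orthogonal to all the central skew matrices
which are orthogonal to `c`, then it is in `c`. -/
theorem KK_mem_of_orth {c : Submodule ℂ (Matrix (Fin k) (Fin k) ℂ)} (hc : c ≤ KK D)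
    {Z : Matrix (Fin k) (Fin k) ℂ} (hZ : Z ∈ KK D)
    (h : ∀ P ∈ KK D, (∀ W ∈ c, (P * W).trace = 0) → (P * Z).trace = 0) : Z ∈ c := by
  obtain ⟨n, ⟨Fr⟩⟩ := exists_frM D
  obtain ⟨d, hd, hort⟩ := exists_orth (PE_g Fr c) (Fr.F' * Z * Fr.F)
  have hdc : Fr.F * d * Fr.F' ∈ c := hd
  -- the difference
  have h1 : Z - Fr.F * d * Fr.F' ∈ KK D := (KK D).sub_mem hZ (hc hdc)
  obtain ⟨A, hA⟩ : ∃ A, A = Fr.F' * Z * Fr.F - d := ⟨_, rfl⟩
  have h2 : Fr.F * A * Fr.F' = Z - Fr.F * d * Fr.F' := by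
    rw [hA, Matrix.mul_sub, Matrix.sub_mul, PE_in]
  have hAK : Fr.F * A * Fr.F' ∈ KK D := by
    rw [h2]
    exact h1
  have hAsp : IsSp A := by
    have h3 := PN_isSp Fr hAK.2.2
    rw [PE_out] at h3
    exact h3
  -- the adjoint
  have h3 : Fr.F * Aᴴ * Fr.F' = -(Fr.F * A * Fr.F').map (starRingEnd ℂ) := by
    rw [PN_star Fr hAsp]
    have h4 : (Fr.F * A * Fr.F').map (starRingEnd ℂ) ∈ RC D := RC_map (starRingEnd ℂ) hAK.1
    have h5 : D.J * (Fr.F * A * Fr.F').map (starRingEnd ℂ) =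
        (Fr.F * A * Fr.F').map (starRingEnd ℂ) * D.J :=
      PN_comm_RC (fun N hN => mem_RQ.1 hN) h4
    rw [h5, Matrix.mul_assoc, D.J_sq, Matrix.mul_neg, Matrix.mul_one]
  have h4 : Fr.F * Aᴴ * Fr.F' ∈ KK D := by
    rw [h3]
    exact (KK D).neg_mem (KK_map (starRingAut : ℂ ≃+* ℂ) hAK)
  have htr : ∀ U W : Matrix (Fin n ⊕ Fin n) (Fin n ⊕ Fin n) ℂ,
      ((Fr.F * U * Fr.F') * (Fr.F * W * Fr.F')).trace = (U * W).trace := by
    intro U W
    rw [← PE_mul, Matrix.trace_mul_comm, ← Matrix.mul_assoc, ← Matrix.mul_assoc, Fr.F'F,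
      Matrix.one_mul]
  have h5 : ∀ W ∈ c, ((Fr.F * Aᴴ * Fr.F') * W).trace = 0 := by
    intro W hW
    have e1 : W = Fr.F * (Fr.F' * W * Fr.F) * Fr.F' := (PE_in Fr W).symm
    rw [e1, htr]
    have h6 := congrArg (starRingEnd ℂ) (hort _ (PE_to_g Fr hW))
    rw [← hA] at h6
    have h7 : (Aᴴ * (Fr.F' * W * Fr.F)).trace =
        (starRingEnd ℂ) ((A * (Fr.F' * W * Fr.F)ᴴ).trace) := by
      have h8 : (A * (Fr.F' * W * Fr.F)ᴴ)ᴴ = (Fr.F' * W * Fr.F) * Aᴴ := by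
        rw [conjTranspose_mul, conjTranspose_conjTranspose]
      rw [Matrix.trace_mul_comm, ← h8, Matrix.trace_conjTranspose]
      rfl
    rw [h7, h6, map_zero]
  have h6 := h _ h4 h5
  have h7 : ((Fr.F * Aᴴ * Fr.F') * (Fr.F * A * Fr.F')).trace = 0 := by
    rw [h2, Matrix.mul_sub, Matrix.trace_sub, h6, h5 _ hdc, sub_self]
  rw [htr] at h7
  have h8 : A = 0 := eq_zero_of_trace (by
    rw [Matrix.trace_mul_comm, h7, Complex.zero_re])
  have h9 : Z = Fr.F * d * Fr.F' := by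
    rw [h8, Matrix.mul_zero, Matrix.zero_mul] at h2
    exact sub_eq_zero.1 h2.symm
  rw [h9]
  exact hdc

/-- The hypotheses on the Lie algebra `g` and on a projection `P` to `g` which commutes with the
brackets with the elements of `g` and of the Lie algebra of the Hodge group, without system. -/
structure GalP (D : PData (Fin k)) (g : Submodule ℂ (Matrix (Fin k) (Fin k) ℂ))
    (P : Matrix (Fin k) (Fin k) ℂ →ₗ[ℂ] Matrix (Fin k) (Fin k) ℂ) : Prop where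
  br : ∀ X ∈ g, ∀ Y ∈ g, X * Y - Y * X ∈ g
  skew : ∀ X ∈ g, Xᵀ * D.Gc + D.Gc * X = 0
  endo : ∀ X ∈ g, ∀ N ∈ RQ D, X * cq N = cq N * X
  comm : ∀ Y : Matrix (Fin k) (Fin k) ℂ, (∀ X ∈ g, X * Y = Y * X) → Y ∈ RC D
  P_mem : ∀ A, P A ∈ g
  P_id : ∀ A ∈ g, P A = A
  P_br : ∀ X ∈ g, ∀ A, P (X * A - A * X) = X * P A - P A * X
  P_lie : ∀ X ∈ D.lie, ∀ A, P (X * A - A * X) = X * P A - P A * X
  ss : ∀ W : Submodule ℂ (Matrix (Fin k) (Fin k) ℂ), (∀ X ∈ g, ∀ A ∈ W, X * A - A * X ∈ W) →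
    ∃ W' : Submodule ℂ (Matrix (Fin k) (Fin k) ℂ), (∀ X ∈ g, ∀ A ∈ W', X * A - A * X ∈ W') ∧
      IsCompl W W'
  sen : ∃ c₀ : ℂ, c₀ ≠ 0 ∧ ∀ τ : ℂ ≃+* ℂ, ∃ X ∈ g, X * X = 1 ∧ ∀ N ∈ RQ D,
    (∀ N' ∈ RQ D, N * N' = N' * N) → Nᵀ * D.G = -(D.G * N) →
      (X * cq N).trace = τ (c₀ * (D.J * cq N).trace)

/-- The elements of the Lie algebra of the Hodge group commute with the endomorphisms. -/
theorem PN_lie_end {X : Matrix (Fin k) (Fin k) ℂ} (hX : X ∈ D.lie)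
    {N : Matrix (Fin k) (Fin k) ℚ} (hN : N ∈ RQ D) : X * cq N = cq N * X := by
  have hsk := lie_skew hX
  have hk : DM D.J (fun j : Fin 2 → Fin k => (((D.G * N) (j 0) (j 1) : ℚ) : ℂ)) = 0 := by
    funext j
    have h3 : (fun j : Fin 2 → Fin k => (((D.G * N) (j 0) (j 1) : ℚ) : ℂ)) =
        fun j => (D.Gc * cq N) (j 0) (j 1) := by
      funext j
      have h0 : D.Gc * cq N = cq (D.G * N) := by
        rw [map_mul]
        rfl
      rw [h0, cq_apply]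
    refine Eq.trans (congrFun (congrArg (DM D.J) h3) j) ?_
    rw [CC_DM2]
    have h5 : D.Jᵀ * D.Gc = -(D.Gc * D.J) := eq_neg_of_add_eq_zero_left D.J_skew
    rw [← Matrix.mul_assoc, h5, Matrix.neg_mul, Matrix.mul_assoc, Matrix.mul_assoc,
      mem_RQ.mp hN, neg_add_cancel]
    rfl
  have h1 := CA_lie_DM hX hk
  have h2 : (fun j : Fin 2 → Fin k => (((D.G * N) (j 0) (j 1) : ℚ) : ℂ)) =
      DI_t2 D.Gc (cq N) := by
    funext j
    have h0 : D.Gc * cq N = cq (D.G * N) := by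
      rw [map_mul]
      rfl
    unfold DI_t2
    rw [h0, cq_apply]
  rw [h2] at h1
  have h3 : D.Gc * (cq N * X - X * cq N) = 0 := by
    ext a b
    have h4 := DI_DM2 hsk (Z := cq N) ![a, b]
    rw [h1] at h4
    simpa using h4.symm
  have h4 : D.Gc⁻¹ * (D.Gc * (cq N * X - X * cq N)) = 0 := by
    rw [h3, Matrix.mul_zero]
  rw [← Matrix.mul_assoc, Matrix.nonsing_inv_mul _ isUnit_Gc, Matrix.one_mul] at h4
  exact (sub_eq_zero.1 h4).symm

/-- **The conjugates of `J` are in the Lie algebra** (without system). -/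
theorem J_map_mem0 {g : Submodule ℂ (Matrix (Fin k) (Fin k) ℂ)}
    {P : Matrix (Fin k) (Fin k) ℂ →ₗ[ℂ] Matrix (Fin k) (Fin k) ℂ} (h : GalP D g P)
    (σ : ℂ ≃+* ℂ) : D.J.map σ ∈ g := by
  obtain ⟨c₀, hc₀, hsen⟩ := h.sen
  choose X hXg hX2 hX using hsen
  -- what commutes with `g` and kills the system is central
  have hcentral : ∀ Z : Matrix (Fin k) (Fin k) ℂ, (∀ A ∈ g, A * Z = Z * A) →
      (∀ N ∈ RQ D, Z * cq N = cq N * Z) → Zᵀ * D.Gc + D.Gc * Z = 0 → Z ∈ KK D :=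
    fun Z h1 h2 h3 => ⟨h.comm Z h1, h2, h3⟩
  -- the brackets
  obtain ⟨B, hB⟩ : ∃ B : Submodule ℂ (Matrix (Fin k) (Fin k) ℂ),
      B = Submodule.span ℂ {W | ∃ A ∈ g, ∃ A' ∈ g, W = A * A' - A' * A} := ⟨_, rfl⟩
  have hBg : B ≤ g := by
    rw [hB, Submodule.span_le]
    rintro _ ⟨A, hA, A', hA', rfl⟩
    exact h.br A hA A' hA'
  have hBbr : ∀ A ∈ g, ∀ A' ∈ g, A * A' - A' * A ∈ B := by
    intro A hA A' hA'
    rw [hB]
    exact Submodule.subset_span ⟨A, hA, A', hA', rfl⟩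
  obtain ⟨W, hW, hBW⟩ := h.ss B (fun A hA A' hA' => hBbr A hA A' (hBg hA'))
  -- the decomposition of `g`
  have hdec : ∀ A ∈ g, ∃ b ∈ B, A - b ∈ KK D ⊓ g := by
    intro A hA
    obtain ⟨b, hb, w, hw, rfl⟩ := Submodule.mem_sup.1 (by
      rw [hBW.sup_eq_top]
      exact Submodule.mem_top : A ∈ B ⊔ W)
    have hwg : w ∈ g := by
      have h1 := g.sub_mem hA (hBg hb)
      rwa [add_sub_cancel_left] at h1
    refine ⟨b, hb, ?_⟩
    rw [add_sub_cancel_left]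
    refine ⟨hcentral w (fun A' hA' => ?_) (h.endo w hwg) (h.skew w hwg), hwg⟩
    have h1 : A' * w - w * A' ∈ B := hBbr A' hA' w hwg
    have h2 : A' * w - w * A' ∈ W := hW A' hA' w hw
    have h3 := hBW.disjoint.le_bot ⟨h1, h2⟩
    exact sub_eq_zero.1 (by simpa using h3)
  -- the brackets are orthogonal to the central elements
  have htr : ∀ Z ∈ KK D, ∀ b ∈ B, (Z * b).trace = 0 := by
    intro Z hZ b hb
    rw [hB] at hb
    refine Submodule.span_induction (p := fun b _ => (Z * b).trace = 0) ?_ ?_ ?_ ?_ hb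
    · rintro _ ⟨A, hA, A', hA', rfl⟩
      have h1 : A * Z = Z * A := PN_comm_RC (h.endo A hA) hZ.1
      have h2 : (Z * (A * A')).trace = (Z * (A' * A)).trace := by
        rw [← Matrix.mul_assoc, ← h1, Matrix.mul_assoc, Matrix.trace_mul_comm, Matrix.mul_assoc]
      rw [Matrix.mul_sub, Matrix.trace_sub, h2, sub_self]
    · rw [Matrix.mul_zero, Matrix.trace_zero]
    · intro U V _ _ hU hV
      rw [Matrix.mul_add, Matrix.trace_add, hU, hV, add_zero]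
    · intro a U _ hU
      rw [Matrix.mul_smul, Matrix.trace_smul, hU, smul_zero]
  -- the decomposition of the conjugate of `J`
  have hJl : D.J.map (σ : ℂ →+* ℂ) ∈ D.lie := PData.lie_map _ PData.J_mem
  obtain ⟨Y, hY⟩ : ∃ Y, Y = D.J.map (σ : ℂ →+* ℂ) := ⟨_, rfl⟩
  rw [← hY] at hJl
  have hYskew := lie_skew hJl
  have hYend : ∀ N ∈ RQ D, Y * cq N = cq N * Y := fun N hN => PN_lie_end hJl hN
  have hYP := h.P_lie Y hJl
  have hZ : Y - P Y ∈ KK D := by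
    refine hcentral _ (fun A hA => ?_) (fun N hN => ?_) ?_
    · have h1 : Y * A - A * Y ∈ g := by
        have h2 := hYP A
        rw [h.P_id A hA] at h2
        rw [← h2]
        exact h.P_mem _
      have h3 : A * (Y - P Y) - (Y - P Y) * A ∈ g := by
        have e : A * (Y - P Y) - (Y - P Y) * A = -(Y * A - A * Y) - (A * P Y - P Y * A) := by
          noncomm_ring
        rw [e]
        exact g.sub_mem (g.neg_mem h1) (h.br A hA _ (h.P_mem Y))
      have h5 := h.P_br A hA (Y - P Y)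
      rw [h.P_id _ h3, map_sub, h.P_id _ (h.P_mem Y), sub_self, Matrix.mul_zero, Matrix.zero_mul,
        sub_zero] at h5
      exact sub_eq_zero.1 h5
    · rw [Matrix.sub_mul, Matrix.mul_sub, hYend N hN, h.endo _ (h.P_mem Y) N hN]
    · have h6 := h.skew _ (h.P_mem Y)
      rw [Matrix.transpose_sub, Matrix.sub_mul, Matrix.mul_sub]
      calc Yᵀ * D.Gc - (P Y)ᵀ * D.Gc + (D.Gc * Y - D.Gc * P Y)
          = (Yᵀ * D.Gc + D.Gc * Y) - ((P Y)ᵀ * D.Gc + D.Gc * P Y) := by abel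
        _ = 0 := by rw [hYskew, h6, sub_self]
  obtain ⟨b, hb, hcb⟩ := hdec _ (h.P_mem Y)
  have hYb : Y - b ∈ KK D := by
    have e : Y - b = (Y - P Y) + (P Y - b) := by abel
    rw [e]
    exact (KK D).add_mem hZ hcb.1
  have hmem : Y - b ∈ KK D ⊓ g := by
    refine KK_mem_of_orth inf_le_left hYb fun Z hZK hZc => ?_
    have h1 : ∀ τ : ℂ ≃+* ℂ, (X τ * Z).trace = 0 := by
      intro τ
      obtain ⟨b', hb', hcb'⟩ := hdec _ (hXg τ)
      have h2 := hZc _ hcb'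
      rw [Matrix.mul_sub, Matrix.trace_sub, htr Z hZK b' hb', sub_zero] at h2
      rw [Matrix.trace_mul_comm]
      exact h2
    have h3 := KK_J hc₀ hX hZK h1 σ
    rw [Matrix.mul_sub, Matrix.trace_sub, htr Z hZK b hb, sub_zero, Matrix.trace_mul_comm, hY]
    exact h3
  have h4 := g.add_mem hmem.2 (hBg hb)
  rw [sub_add_cancel, hY] at h4
  exact h4

/-- The elements of the Lie algebra of the Hodge group kill the system. -/
theorem PN_lie {Q : QSys D} {X : Matrix (Fin k) (Fin k) ℂ} (hX : X ∈ D.lie) (d : ℕ)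
    (t : (Fin d → Fin k) → ℚ) (ht : t ∈ Q.T d) : DM X (fun j => (t j : ℂ)) = 0 :=
  CA_lie_DM hX (Q.killed ht)

theorem TGal1.galP {Q : QSys D} {g : Submodule ℂ (Matrix (Fin k) (Fin k) ℂ)}
    {P : Matrix (Fin k) (Fin k) ℂ →ₗ[ℂ] Matrix (Fin k) (Fin k) ℂ} (h : TGal1 Q g P) :
    GalP D g P where
  br := h.br
  skew := fun A hA => PN_skew (h.kills A hA)
  endo := fun A hA N hN => PN_comm h.end_mem (h.kills A hA) hN
  comm := h.comm
  P_mem := h.P_mem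
  P_id := h.P_id
  P_br := h.P_br
  P_lie := fun Y hY A => DI_all isUnit_Gc (lie_skew hY) P
    (PN_span_kills (Q := Q) (fun d t ht => PN_lie hY d t ht) h.four) A
  ss := h.ss
  sen := h.sen

/-- **The conjugates of `J` are in the Lie algebra** (one class of degree four). -/
theorem J_map_mem1 {Q : QSys D} {g : Submodule ℂ (Matrix (Fin k) (Fin k) ℂ)}
    {P : Matrix (Fin k) (Fin k) ℂ →ₗ[ℂ] Matrix (Fin k) (Fin k) ℂ} (h : TGal1 Q g P)
    (σ : ℂ ≃+* ℂ) : D.J.map σ ∈ g :=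
  J_map_mem0 h.galP σ

/-- The form of a linear map which commutes with the brackets is killed. -/
theorem PN_t4 {X : Matrix (Fin k) (Fin k) ℂ} (hX : Xᵀ * D.Gc + D.Gc * X = 0)
    {P : Matrix (Fin k) (Fin k) ℂ →ₗ[ℂ] Matrix (Fin k) (Fin k) ℂ}
    (hP : ∀ A, P (X * A - A * X) = X * P A - P A * X) : DM X (DI_t4 D.Gc P) = 0 := by
  funext j
  rw [DI_DM4 hX P j, hP, sub_self, Matrix.mul_zero]
  rfl

theorem TGal4.exists_one {Q : QSys D} {g : Submodule ℂ (Matrix (Fin k) (Fin k) ℂ)}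
    (h : TGal4 Q g) : ∃ P, TGal1 Q g P := by
  obtain ⟨W, hW, hgW⟩ := h.ss g (fun X hX A hA => h.br X hX A hA)
  let p : Matrix (Fin k) (Fin k) ℂ →ₗ[ℂ] Matrix (Fin k) (Fin k) ℂ :=
    g.subtype ∘ₗ (Submodule.projectionOnto g W hgW)
  have hpg : ∀ E, p E ∈ g := fun E => (Submodule.projectionOnto g W hgW E).2
  have hp1 : ∀ E ∈ g, p E = E := by
    intro E hE
    have := Submodule.projectionOnto_apply_left hgW ⟨E, hE⟩
    exact congrArg Subtype.val this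
  have hp0 : ∀ E ∈ W, p E = 0 := by
    intro E hE
    have := (Submodule.projectionOnto_apply_eq_zero_iff hgW (x := E)).2 hE
    exact congrArg Subtype.val this
  have hpW : ∀ E, E - p E ∈ W := by
    intro E
    refine (Submodule.projectionOnto_apply_eq_zero_iff hgW).1 ?_
    refine Subtype.ext ?_
    show p (E - p E) = 0
    rw [map_sub, hp1 _ (hpg E), sub_self]
  have hpc : ∀ Y ∈ g, ∀ E, p (Y * E - E * Y) = Y * p E - p E * Y := by
    intro Y hY E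
    have h1 : Y * E - E * Y = (Y * p E - p E * Y) + (Y * (E - p E) - (E - p E) * Y) := by
      noncomm_ring
    rw [h1, map_add, hp1 _ (h.br Y hY _ (hpg E)), hp0 _ (hW Y hY _ (hpW E)), add_zero]
  exact ⟨p, { br := h.br
              end_mem := h.end_mem
              kills := h.kills
              comm := h.comm
              P_mem := hpg
              P_id := hp1
              P_br := hpc
              four := h.four _ fun X hX => PN_t4 (PN_skew (h.kills X hX)) (hpc X hX)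
              ss := h.ss
              sen := h.sen }⟩

/-- **The conjugates of `J` are in the Lie algebra** (all the classes of degree four). -/
theorem J_map_mem4 {Q : QSys D} {g : Submodule ℂ (Matrix (Fin k) (Fin k) ℂ)} (h : TGal4 Q g)
    (σ : ℂ ≃+* ℂ) : D.J.map σ ∈ g := by
  obtain ⟨P, hP⟩ := h.exists_one
  exact J_map_mem1 hP σ

/-- What is killed by the conjugates of `J` is a combination of Hodge tensors. -/
theorem hodge_of_J {d : ℕ} {t : (Fin d → Fin k) → ℂ}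
    (ht : ∀ σ : ℂ ≃+* ℂ, DM (D.J.map σ) t = 0) :
    t ∈ Submodule.span ℂ {w | ∃ u : (Fin d → Fin k) → ℚ,
      DM D.J (fun j => ((u j : ℚ) : ℂ)) = 0 ∧ w = fun j => ((u j : ℚ) : ℂ)} := by
  let W : Submodule ℂ ((Fin d → Fin k) → ℂ) :=
    { carrier := {t | ∀ σ : ℂ ≃+* ℂ, DM (D.J.map σ) t = 0}
      add_mem' := by
        intro a b ha hb σ
        rw [DM_add, ha σ, hb σ, add_zero]
      zero_mem' := by
        intro σ
        exact DM_zero_right _
      smul_mem' := by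
        intro c a ha σ
        rw [DM_smul, ha σ, smul_zero] }
  have hW : ∀ σ : ℂ ≃+* ℂ, ∀ w ∈ W, (fun i => σ (w i)) ∈ W := by
    intro ρ w hw τ
    funext j
    have h1 := DM_map (ρ : ℂ →+* ℂ) (D.J.map (τ.trans ρ.symm)) w j
    rw [hw (τ.trans ρ.symm), Pi.zero_apply, map_zero] at h1
    have h2 : (D.J.map (τ.trans ρ.symm)).map (ρ : ℂ →+* ℂ) = D.J.map τ := by
      ext a b
      simp
    rw [h2] at h1
    exact h1
  have h1 := le_span_rational W hW (show t ∈ W from ht)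
  refine Submodule.span_mono ?_ h1
  rintro w ⟨hw, q, hq⟩
  have h2 : w = fun j => ((q j : ℚ) : ℂ) := funext hq
  refine ⟨q, ?_, h2⟩
  have h3 := hw (RingEquiv.refl ℂ)
  have h4 : D.J.map (RingEquiv.refl ℂ) = D.J := by
    ext a b
    simp
  rw [h4, h2] at h3
  exact h3

end Pool.Agent.Lib.MP_021685_agP
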