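import Pool.Agent.Lib.MP_021685_agP.PMc
import Pool.Agent.Lib.MP_021685_agQ.QC

/-!
# The system of all the Hodge tensors
-/

set_option autoImplicit false
set_option linter.unusedSectionVars false

namespace Pool.Agent.Lib.MP_021685_agP

open Matrix Function Module MP_802513_ag MP_802513_agH MP_802513_agU MP_802513_agS MP_021685_agS
  MP_021685_agQ
open scoped TensorProduct

/-- The Hodge tensors form a system. -/
noncomputable def Qh {k : ℕ} (D : PData (Fin k)) : QSys D where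
  T := fun d =>
    { carrier := {t | DM D.J (fun j => ((t j : ℚ) : ℂ)) = 0}
      add_mem' := by
        intro t u ht hu
        have h1 : (fun j => (((t + u) j : ℚ) : ℂ)) =
            (fun j => ((t j : ℚ) : ℂ)) + fun j => ((u j : ℚ) : ℂ) := by
          funext j
          rw [Pi.add_apply, Pi.add_apply, Rat.cast_add]
        show DM D.J _ = 0
        rw [h1, DM_add, ht, hu, add_zero]
      zero_mem' := by
        have h1 : (fun j : Fin d → Fin k => (((0 : (Fin d → Fin k) → ℚ) j : ℚ) : ℂ)) = 0 := by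
          funext j
          rw [Pi.zero_apply, Pi.zero_apply, Rat.cast_zero]
        show DM D.J _ = 0
        rw [h1]
        exact DM_zero_right _
      smul_mem' := by
        intro c t ht
        have h1 : (fun j => (((c • t) j : ℚ) : ℂ)) = (c : ℂ) • fun j => ((t j : ℚ) : ℂ) := by
          funext j
          rw [Pi.smul_apply, Pi.smul_apply, smul_eq_mul, smul_eq_mul, Rat.cast_mul]
        show DM D.J _ = 0
        rw [h1, DM_smul, ht, smul_zero] }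
  one := by
    show DM D.J _ = 0
    funext j
    unfold DM
    rw [Finset.univ_eq_empty, Finset.sum_empty]
    rfl
  perm := by
    intro d e σ t ht
    show DM D.J _ = 0
    funext j
    rw [GG_DM_perm D.J σ (fun j => ((t j : ℚ) : ℂ)) j]
    have h1 : DM D.J (fun j => ((t j : ℚ) : ℂ)) = 0 := ht
    rw [h1]
    rfl
  mul := by
    intro d e t u ht hu
    show DM D.J _ = 0
    funext j
    have h1 := GG_DM_mul D.J (fun j => ((t j : ℚ) : ℂ)) (fun j => ((u j : ℚ) : ℂ)) j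
    have h2 : DM D.J (fun j => ((t j : ℚ) : ℂ)) = 0 := ht
    have h3 : DM D.J (fun j => ((u j : ℚ) : ℂ)) = 0 := hu
    rw [h2, h3] at h1
    push_cast
    rw [h1]
    simp
  form := by
    show DM D.J _ = 0
    exact TI_killed D
  det := by
    intro d t ht
    show DM D.J _ = 0
    have h1 := GG_detC_killed (GG_trace D) (show DM D.J (fun j => ((t j : ℚ) : ℂ)) = 0 from ht)
    have h2 : (fun j => ((detC (Equiv.refl (Fin k)) t j : ℚ) : ℂ)) =
        detC (Equiv.refl (Fin k)) (fun j => ((t j : ℚ) : ℂ)) := by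
      funext j
      unfold detC
      rw [Rat.cast_sum]
      refine Finset.sum_congr rfl fun σ _ => ?_
      rw [zsmul_eq_mul, zsmul_eq_mul, Rat.cast_mul, Rat.cast_intCast]
    rw [h2]
    exact h1
  killed := fun ht => ht

theorem mem_Qh {k : ℕ} {D : PData (Fin k)} {d : ℕ} {t : (Fin d → Fin k) → ℚ} :
    t ∈ (Qh D).T d ↔ DM D.J (fun j => ((t j : ℚ) : ℂ)) = 0 := Iff.rfl

variable {V : Type*} [AddCommGroup V] [Module ℂ V]
  {L : AddSubgroup V} {g : ℕ} {b : Basis (Fin (2 * g)) ℝ V}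
  {e : Basis (Fin (2 * g)) ℂ (ℂ ⊗[ℤ] L)}
  {D : PData (Fin (2 * g))}
  {γ : Submodule ℂ (Module.End ℂ (ℂ ⊗[ℤ] L))} {c : Module.End ℂ (ℂ ⊗[ℤ] L) → ℂ}

/-- The form with the coordinates `mlT t`, for a Hodge tensor `t`, is a Hodge class. -/
theorem ml_hodge (hb : ∀ w, w ∈ L ↔ ∀ l, ∃ n : ℤ, b.repr w l = n) (hJ : D.J = rc (Jr b)) {i : ℕ}
    {t : (Fin (2 * i) → Fin (2 * g)) → ℚ} (ht : DM D.J (fun j => ((t j : ℚ) : ℂ)) = 0)
    {η : (Fin (2 * i) → V) [⋀^Fin (2 * i)]→ₗ[ℝ] ℝ} (hη : HasCoord b η (mlT t)) :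
    IsHodgeClass (powLattice L (2 * i)) i η := by
  refine HasCoord.hodge hb (i := i) hη ?_
  intro j
  have h2 : (fun j => ((mlT t j : ℚ) : ℂ)) = mlT (fun j => ((t j : ℚ) : ℂ)) := mlT_cast _
  have h3 : DX (rc (Jr b)) (mlT (fun j => ((t j : ℚ) : ℂ))) j = 0 := by
    rw [mlT_eq, DX_alt_dl, ← hJ, ht]
    unfold altT dl
    simp
  rw [← h2] at h3
  exact h3

/-- The Lie algebra kills the Hodge tensors. -/
theorem skew_killsH (hb : ∀ w, w ∈ L ↔ ∀ l, ∃ n : ℤ, b.repr w l = n)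
    (he : ∀ (l : Fin (2 * g)) (h : b l ∈ L), e l = 1 ⊗ₜ[ℤ] (⟨b l, h⟩ : L)) (hJ : D.J = rc (Jr b))
    (hT : ∀ (n i : ℕ) (θ : (Fin n → ℂ ⊗[ℤ] L) [⋀^Fin (2 * i)]→ₗ[ℂ] ℂ),
      θ ∈ extF ℂ (hodgeC L) n i → IsTate γ c n i θ)
    {X : Matrix (Fin (2 * g)) (Fin (2 * g)) ℂ} (hX : X ∈ skewPart e D γ)
    (d : ℕ) (t : (Fin d → Fin (2 * g)) → ℚ) (ht : t ∈ (Qh D).T d) :
    DM X (fun j => (t j : ℂ)) = 0 := by
  by_cases hd : 2 ∣ d
  · obtain ⟨i, rfl⟩ := hd
    obtain ⟨η, hη⟩ := exists_ml_form b t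
    have hηC : η ∈ hodgeC L (2 * i) i := ml_hodge hb hJ ht hη
    obtain ⟨θ, hθ⟩ := exists_extension (F := ℂ) hb he hη
    have hθ1 : IsTate γ c (2 * i) i θ := hT _ i θ (Submodule.subset_span ⟨η, hηC, hθ⟩)
    have hθ2 := (extends_iff hb he hη).mp hθ
    have h2 := (isTate_iff hb he hJ (fun i _ η h => h) hT hθ2).1 hθ1 id X hX
    have h3 : (fun l : Fin (2 * i) → Fin (2 * g) =>
        ((mlT t (fun s => (id s, l s)) : ℚ) : ℂ)) = fun j => (t j : ℂ) := by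
      funext l
      have h7 := mlT_id t l
      exact congrArg (fun q : ℚ => (q : ℂ)) h7
    rw [← h3]
    exact h2
  · have h2 := odd_killed D hd ((Qh D).killed ht)
    rw [h2]
    exact DM_zero_right X

/-- The slices of a combination of Hodge classes are combinations of Hodge tensors. -/
theorem slice_hodge (hb : ∀ w, w ∈ L ↔ ∀ l, ∃ n : ℤ, b.repr w l = n)
    (he : ∀ (l : Fin (2 * g)) (h : b l ∈ L), e l = 1 ⊗ₜ[ℤ] (⟨b l, h⟩ : L)) (hJ : D.J = rc (Jr b))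
    {n i : ℕ} {θ : (Fin n → ℂ ⊗[ℤ] L) [⋀^Fin (2 * i)]→ₗ[ℂ] ℂ} (hθ : θ ∈ extF ℂ (hodgeC L) n i)
    {T : (Fin (2 * i) → Fin n × Fin (2 * g)) → ℂ} (hT : HasC e θ T) (α : Fin (2 * i) → Fin n) :
    (fun l => T (fun s => (α s, l s))) ∈ spC (Qh D) (2 * i) := by
  have key : ∀ T : (Fin (2 * i) → Fin n × Fin (2 * g)) → ℂ, HasC e θ T →
      (fun l => T (fun s => (α s, l s))) ∈ spC (Qh D) (2 * i) := by
    refine Submodule.span_induction (p := fun θ _ =>
      ∀ T : (Fin (2 * i) → Fin n × Fin (2 * g)) → ℂ, HasC e θ T →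
      (fun l => T (fun s => (α s, l s))) ∈ spC (Qh D) (2 * i)) ?_ ?_ ?_ ?_ hθ
    · rintro θ ⟨η, hη, hex⟩ T hT
      have hηH : IsHodgeClass (powLattice L n) i η := hη
      obtain ⟨T', hT'⟩ := MP_802513_agH.exists_tensor (b := b) hb hηH
      have hT1 : HasCoord b η T' := hT'
      have h1 := hT.unique ((extends_iff hb he hT1).1 hex)
      rw [h1]
      refine Submodule.subset_span ⟨fun l => T' (fun s => (α s, l s)), ?_, rfl⟩
      rw [mem_Qh, hJ]
      funext l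
      have h1 := tensor_killed (b := b) hηH hT1 (fun s => (α s, l s))
      rw [Pi.zero_apply, ← h1]
      unfold DM DX
      refine Finset.sum_congr rfl fun s _ => Finset.sum_congr rfl fun m _ => ?_
      have h2 : (fun s' => (α s', update l s m s')) = update (fun s => (α s, l s)) s (α s, m) := by
        funext s'
        by_cases hs : s' = s
        · subst hs
          rw [update_self, update_self]
        · rw [update_of_ne hs, update_of_ne hs]
      show ((T' (fun s' => (α s', update l s m s')) : ℚ) : ℂ) * _ = _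
      rw [h2]
    · intro T hT
      rw [hT.unique HasC_zero]
      exact Submodule.zero_mem _
    · intro x y _ _ hx hy T hT
      obtain ⟨T1, h1⟩ := exists_HasC (e := e) x
      obtain ⟨T2, h2⟩ := exists_HasC (e := e) y
      rw [hT.unique (h1.add h2)]
      exact Submodule.add_mem _ (hx T1 h1) (hy T2 h2)
    · intro c x _ hx T hT
      obtain ⟨T1, h1⟩ := exists_HasC (e := e) x
      rw [hT.unique (h1.smul c)]
      exact Submodule.smul_mem _ c (hx T1 h1)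
  exact key T hT

/-- The tensors with two groups of slots, from the forms on `A ^ 2`. -/
theorem skew_midH (hb : ∀ w, w ∈ L ↔ ∀ l, ∃ n : ℤ, b.repr w l = n)
    (he : ∀ (l : Fin (2 * g)) (h : b l ∈ L), e l = 1 ⊗ₜ[ℤ] (⟨b l, h⟩ : L)) (hJ : D.J = rc (Jr b))
    (hT : ∀ (n i : ℕ) (θ : (Fin n → ℂ ⊗[ℤ] L) [⋀^Fin (2 * i)]→ₗ[ℂ] ℂ),
      θ ∈ extF ℂ (hodgeC L) n i → IsTate γ c n i θ) {i : ℕ}
    (h2 : ∀ θ : (Fin 2 → ℂ ⊗[ℤ] L) [⋀^Fin (2 * i)]→ₗ[ℂ] ℂ, IsTate γ c 2 i θ →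
      θ ∈ extF ℂ (hodgeC L) 2 i)
    {p q : ℕ} (hpq : p + q = 2 * i)
    {t : (Fin p ⊕ Fin q → Fin (2 * g)) → ℂ} (ht : IsAltS t)
    (hk : ∀ X ∈ skewPart e D γ, DM X t = 0) :
    (fun j : Fin (p + q) → Fin (2 * g) => t fun s => j (finSumFinEquiv s)) ∈
      spC (Qh D) (p + q) := by
  obtain ⟨E, hE⟩ : ∃ E : Fin p ⊕ Fin q ≃ Fin (2 * i), E = finSumFinEquiv.trans (finCongr hpq) :=
    ⟨_, rfl⟩
  obtain ⟨t', ht'⟩ : ∃ t' : (Fin (2 * i) → Fin (2 * g)) → ℂ, t' = fun j => t (fun s => j (E s)) :=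
    ⟨_, rfl⟩
  obtain ⟨θ, hθ⟩ := exists_HasC_form (e := e) (isAlt_altT (dl (col E) t'))
  have hk' : ∀ X ∈ skewPart e D γ, DM X t' = 0 := by
    intro X hX
    rw [ht', DM_re E X t, hk X hX]
    rfl
  have hθ1 : IsTate γ c 2 i θ := by
    refine (isTate_iff hb he hJ (fun i _ η h => h) hT hθ).2 fun β Y hY => ?_
    rw [DM_lift_slice, DM_lift_alt_dl, hk' Y hY]
    funext l
    unfold altT dl
    simp
  have h3 := slice_hodge (D := D) hb he hJ (h2 θ hθ1) hθ (col E)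
  obtain ⟨m, hm, hm2⟩ := slice_col E ht
  have h4 : (fun l : Fin (2 * i) → Fin (2 * g) => altT (dl (col E) t') (fun s => (col E s, l s))) =
      (m : ℂ) • t' := by
    funext l
    rw [ht']
    exact hm2 l
  rw [h4] at h3
  have hm0 : (m : ℂ) ≠ 0 := Nat.cast_ne_zero.2 hm
  have h5 := Submodule.smul_mem _ ((m : ℂ)⁻¹) h3
  rw [smul_smul, inv_mul_cancel₀ hm0, one_smul] at h5
  have h6 : ∀ w ∈ spC (Qh D) (2 * i), (fun j : Fin (p + q) → Fin (2 * g) =>
      w (fun s => j ((finCongr hpq).symm s))) ∈ spC (Qh D) (p + q) := by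
    intro w hw
    refine Submodule.span_induction (p := fun w _ => (fun j : Fin (p + q) → Fin (2 * g) =>
      w (fun s => j ((finCongr hpq).symm s))) ∈ spC (Qh D) (p + q)) ?_ ?_ ?_ ?_ hw
    · rintro _ ⟨u, hu, rfl⟩
      exact Submodule.subset_span ⟨_, (Qh D).perm (finCongr hpq).symm hu, rfl⟩
    · exact Submodule.zero_mem _
    · intro x y _ _ hx hy
      exact Submodule.add_mem _ hx hy
    · intro a x _ hx
      exact Submodule.smul_mem _ a hx
  have h7 := h6 t' h5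
  have h8 : (fun j : Fin (p + q) → Fin (2 * g) => t' (fun s => j ((finCongr hpq).symm s))) =
      fun j : Fin (p + q) → Fin (2 * g) => t fun s => j (finSumFinEquiv s) := by
    funext j
    rw [ht', hE]
    rfl
  rw [h8] at h7
  exact h7

/-- The hypotheses in coordinates, for the system of all the Hodge tensors. -/
theorem tgalH (hb : ∀ w, w ∈ L ↔ ∀ l, ∃ n : ℤ, b.repr w l = n)
    (he : ∀ (l : Fin (2 * g)) (h : b l ∈ L), e l = 1 ⊗ₜ[ℤ] (⟨b l, h⟩ : L)) (hJ : D.J = rc (Jr b))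
    (hT : ∀ (n i : ℕ) (θ : (Fin n → ℂ ⊗[ℤ] L) [⋀^Fin (2 * i)]→ₗ[ℂ] ℂ),
      θ ∈ extF ℂ (hodgeC L) n i → IsTate γ c n i θ)
    (h2 : ∀ θ : (Fin 2 → ℂ ⊗[ℤ] L) [⋀^Fin (2 * g)]→ₗ[ℂ] ℂ, IsTate γ c 2 g θ →
      θ ∈ extF ℂ (hodgeC L) 2 g)
    (hbr : ∀ X ∈ γ, ∀ Y ∈ γ, X * Y - Y * X ∈ γ)
    (hHT : ∀ Y : Module.End ℂ (ℂ ⊗[ℤ] L), (∀ h ∈ γ, h * h = h → c h = 1 → h * Y = Y * h) →
      ∀ X ∈ γ, X * Y = Y * X)
    (hss : ∀ W : Submodule ℂ ((ℂ ⊗[ℤ] L) [⋀^Fin g]→ₗ[ℂ] ℂ), IsStableSpace γ W →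
      ∃ W', IsStableSpace γ W' ∧ IsCompl W W')
    (hsen : ∀ τ : ℂ ≃+* ℂ, ∃ h ∈ γ, h * h = h ∧ c h = 1 ∧ ∀ T ∈ EndAlg L,
      ∀ T' : Module.End ℂ (ℂ ⊗[ℤ] L), EndExt T T' →
        LinearMap.trace ℂ _ (h * T') = τ (LinearMap.trace ℂ V T)) :
    TGal (Qh D) (skewPart e D γ) where
  br := fun X hX Y hY => skew_br hbr hX hY
  end_mem := fun N hN => killed_end hN
  kills := fun X hX d t ht => skew_killsH hb he hJ hT hX d t ht
  two := two_of_mid (fun X hX d t ht => skew_killsH hb he hJ hT hX d t ht)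
    (fun p q hpq t ht hk => skew_midH hb he hJ hT h2 hpq ht hk)
  ht := fun Y hY X hX => skew_ht (C := hodgeC L) hb he hJ (fun i _ η h => h) hT hHT hY hX
  ss := fun r hr W hWa hW => by
    have h3 : g = r := by omega
    subst h3
    exact skew_ss (C := hodgeC L) hb he hJ (fun i _ η h => h) hT hss hWa hW
  sen := skew_sen (C := hodgeC L) hb he hJ (fun i _ η h => h) hT hsen

end Pool.Agent.Lib.MP_021685_agP
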