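import Pool.Agent.Lib.MP_021685_agP.PS
import Pool.Agent.Lib.MP_021685_agP.PT
import Pool.Agent.Lib.MP_021685_agP.PDj
import Pool.Agent.Lib.MP_021685_agP.PG

/-!
# The Tate conjecture for the powers, from the middle degree of `A ^ 2`
-/

set_option autoImplicit false
set_option linter.unusedSectionVars false

namespace Pool.Agent.Lib.MP_021685_agP

open Matrix Function Module MP_802513_ag MP_802513_agH MP_802513_agU MP_802513_agS MP_021685_agS
  MP_021685_agQ
open scoped TensorProduct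

variable {V : Type*} [AddCommGroup V] [Module ℂ V] {L : AddSubgroup V}
  {γ : Submodule ℂ (Module.End ℂ (ℂ ⊗[ℤ] L))} {c : Module.End ℂ (ℂ ⊗[ℤ] L) → ℂ}

/-- **Mumford-Tate, and the Tate conjecture for the powers**, from the middle degree of `A ^ 2`. -/
theorem tate_inf (hA : IsAbelianVariety L) {B : V →ₗ[ℝ] V →ₗ[ℝ] ℝ} (hB : IsRiemannForm L B)
    {C : ∀ n i : ℕ, Submodule ℚ ((Fin n → V) [⋀^Fin (2 * i)]→ₗ[ℝ] ℝ)} (hC : IsStableFamily L C)
    (h1 : ∀ i ≤ 1, ∀ η, IsHodgeClass (powLattice L 2) i η → η ∈ C 2 i)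
    (hγ : IsTateLie C γ c) (hs : IsSen L γ c) (h2 : TateHolds C γ c 2 (finrank ℂ V)) :
    (∀ n i, TateHolds (hodgeC L) γ c n i) ∧
    ∀ (n i : ℕ) (θ : (Fin n → ℂ ⊗[ℤ] L) [⋀^Fin (2 * i)]→ₗ[ℂ] ℂ), IsTate γ c n i θ →
      KilledByDeg L B θ → θ ∈ extF ℂ C n i := by
  obtain ⟨g, b, hL, hb⟩ := exists_basis hA.lattice
  have hg : finrank ℂ V = g := finrank_of_basis b
  obtain ⟨D, hJ, hG⟩ := exists_pdata b hb hB
  obtain ⟨Q, hQ⟩ := exists_QSys hC hL hb h1 hJ
  obtain ⟨e, he⟩ := exists_latBasis ℂ hb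
  have hss := hγ.semisimple
  rw [hg] at hss h2
  have H := tgal hC hb he hJ hQ h1 hγ.tate h2 hγ.lie hγ.cochar hss hs
  have hkill : ∀ {n i : ℕ} {θ : (Fin n → ℂ ⊗[ℤ] L) [⋀^Fin (2 * i)]→ₗ[ℂ] ℂ}, IsTate γ c n i θ →
      ∀ (α : Fin (2 * i) → Fin n), ∀ Y ∈ skewPart e D γ,
        DM Y (fun l => coordL e n (2 * i) θ (fun s => (α s, l s))) = 0 :=
    fun hθ => (isTate_iff hb he hJ h1 hγ.tate (coordL_hasC e _)).1 hθ
  refine ⟨fun n i θ hθ => ?_, fun n i θ hθ hk => ?_⟩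
  · refine mem_extF_of_rational hb he (killedJ D n (2 * i)) (fun σ w hw => killedJ_aut σ hw)
      (fun w hw => hw.1) (fun q hq η hη => (killedJ_hodge hb hJ hq hη).2) ?_
    refine ⟨(coordL_hasC e θ).isAlt, fun σ => ?_⟩
    funext j
    have h4 := hkill hθ (fun a => (j a).1) _ (J_map_mem H σ)
    have h5 := congrFun h4 (fun a => (j a).2)
    have h6 := congrFun (DM_lift_slice (D.J.map σ) (coordL e n (2 * i) θ) (fun a => (j a).1))
      (fun a => (j a).2)
    rw [h5] at h6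
    exact h6.symm
  · refine ext_of_slices hC hb he hQ (coordL_hasC e θ) fun α => ?_
    refine inf_main H (hkill hθ α) fun N hN => ?_
    obtain ⟨S, hS, hSm⟩ := exists_degenerate hb hJ hG hN
    have h3 := hk S (Matrix.toLin e e (cq N)) hS (endExt_toLin hb he hSm)
    have h4 : ∀ v : Fin (2 * i) → Fin n → ℂ ⊗[ℤ] L,
        ∑ s, θ (update v s (fun a => Matrix.toLin e e (cq N) (v s a))) = 0 * θ v := by
      intro v
      rw [h3 v, zero_mul]
    have h5 := ((coordL_hasC e θ).der_iff _ 0).1 h4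
    rw [LinearMap.toMatrix_toLin, zero_smul] at h5
    have h6 := DM_lift_slice (cq N) (coordL e n (2 * i) θ) α
    rw [h5] at h6
    exact h6

/-- The degenerate endomorphisms of an abelian variety with symmetric centre. -/
theorem degenerate_zero {B : V →ₗ[ℝ] V →ₗ[ℝ] ℝ} (hB : IsRiemannForm L B)
    (hcen : ∀ T ∈ EndAlg L, (∀ S ∈ EndAlg L, S * T = T * S) → ∀ x y, B (T x) y = B x (T y))
    {T : Module.End ℂ V} (hT : IsDegenerate L B T) : T = 0 := by
  obtain ⟨h1, h2, h3, -⟩ := hT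
  have h4 := hcen T h1 h2
  have h5 : ∀ x y, B x (T y) = 0 := by
    intro x y
    have h6 := h3 x y
    rw [h4] at h6
    linarith
  ext x
  by_contra h
  have h6 := hB.pos (T x) h
  rw [h5] at h6
  exact lt_irrefl _ h6

end Pool.Agent.Lib.MP_021685_agP
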